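import Pool.Agent.TH961.AP.Gen2
import Pool.Agent.H217R3.AK.Bsg

set_option autoImplicit false

/-!
Large values of Dirichlet polynomials at linear images of sets of integer vectors: the double sum
over differences, and popular differences.
-/

namespace Pool.Agent.K9h97.FD

open Finset MeasureTheory Pool.Agent.TH961.AP
open scoped Pointwise

section

variable {α : Type}

/-- `∑_{m,n ≤ N} |∑_{t ∈ T} exp (i y_t log (n/m))|²` -/
noncomputable def GY (N : ℕ) (T : Finset α) (y : α → ℝ) : ℝ :=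
  ∑ m ∈ Icc 1 N, ∑ n ∈ Icc 1 N, ∑ t ∈ T, ∑ t' ∈ T,
    Real.cos ((Real.log n - Real.log m) * (y t - y t'))

theorem cos_sum_sqY (T : Finset α) (y : α → ℝ) (u : ℝ) :
    ∑ t ∈ T, ∑ t' ∈ T, Real.cos (u * (y t - y t')) =
      (∑ t ∈ T, Real.cos (u * y t)) ^ 2 + (∑ t ∈ T, Real.sin (u * y t)) ^ 2 := by
  have h : ∀ t ∈ T, ∀ t' ∈ T, Real.cos (u * (y t - y t')) =
      Real.cos (u * y t) * Real.cos (u * y t') + Real.sin (u * y t) * Real.sin (u * y t') := by
    intro t _ t' _
    rw [mul_sub, Real.cos_sub]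
  rw [sum_congr rfl (fun t ht => sum_congr rfl (fun t' ht' => h t ht t' ht'))]
  rw [sq, sq, sum_mul_sum, sum_mul_sum]
  rw [← sum_add_distrib]
  apply sum_congr rfl
  intro t _
  rw [← sum_add_distrib]

theorem GY_nonneg (N : ℕ) (T : Finset α) (y : α → ℝ) : 0 ≤ GY N T y := by
  unfold GY
  apply sum_nonneg
  intro m _
  apply sum_nonneg
  intro n _
  rw [cos_sum_sqY]
  positivity

/-- the double sum over differences -/
theorem diff_sumY (N : ℕ) (T : Finset α) (y : α → ℝ) (t₀ : ℝ) (a : ℕ → ℂ) (ha : ∀ n, ‖a n‖ ≤ 1) :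
    ∑ t ∈ T, ∑ t' ∈ T, ‖DP N a (t₀ + (y t - y t'))‖ ^ 2 ≤ GY N T y := by
  have hterm : ∀ t ∈ T, ∀ t' ∈ T, ((‖DP N a (t₀ + (y t - y t'))‖ ^ 2 : ℝ) : ℂ) =
      ∑ m ∈ Icc 1 N, ∑ n ∈ Icc 1 N, (a m * (starRingEnd ℂ) (a n) *
        Complex.exp ((t₀ * (Real.log n - Real.log m) : ℝ) * Complex.I)) *
        (Complex.exp (((Real.log n - Real.log m) * y t : ℝ) * Complex.I) *
          (starRingEnd ℂ) (Complex.exp (((Real.log n - Real.log m) * y t' : ℝ) * Complex.I))) := by
    intro t _ t' _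
    have h1 : ((‖DP N a (t₀ + (y t - y t'))‖ ^ 2 : ℝ) : ℂ) =
        DP N a (t₀ + (y t - y t')) *
          (starRingEnd ℂ) (DP N a (t₀ + (y t - y t'))) := by
      rw [Complex.mul_conj, Complex.normSq_eq_norm_sq]
    rw [h1]
    unfold DP
    rw [map_sum, Finset.sum_mul_sum]
    apply sum_congr rfl
    intro m hm
    apply sum_congr rfl
    intro n hn
    rw [cpow_eq m (mem_Icc.1 hm).1, cpow_eq n (mem_Icc.1 hn).1, map_mul, ← Complex.exp_conj,
      ← Complex.exp_conj]
    have h2 : (starRingEnd ℂ) (((-((t₀ + (y t - y t')) * Real.log n) : ℝ) : ℂ) * Complex.I) =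
        (((t₀ + (y t - y t')) * Real.log n : ℝ) : ℂ) * Complex.I := by
      rw [map_mul, Complex.conj_ofReal, Complex.conj_I]
      push_cast; ring
    have h2' : (starRingEnd ℂ) ((((Real.log n - Real.log m) * y t' : ℝ) : ℂ) * Complex.I) =
        ((-((Real.log n - Real.log m) * y t') : ℝ) : ℂ) * Complex.I := by
      rw [map_mul, Complex.conj_ofReal, Complex.conj_I]
      push_cast; ring
    rw [h2, h2']
    have h3 : Complex.exp (((-((t₀ + (y t - y t')) * Real.log m) : ℝ) : ℂ) * Complex.I) *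
        Complex.exp ((((t₀ + (y t - y t')) * Real.log n : ℝ) : ℂ) * Complex.I) =
        Complex.exp ((t₀ * (Real.log n - Real.log m) : ℝ) * Complex.I) *
        (Complex.exp (((Real.log n - Real.log m) * y t : ℝ) * Complex.I) *
          Complex.exp (((-((Real.log n - Real.log m) * y t') : ℝ) : ℂ) * Complex.I)) := by
      rw [← Complex.exp_add, ← Complex.exp_add, ← Complex.exp_add]
      congr 1
      push_cast
      ring
    calc a m * Complex.exp (((-((t₀ + (y t - y t')) * Real.log m) : ℝ) : ℂ) * Complex.I) *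
          ((starRingEnd ℂ) (a n) *
            Complex.exp ((((t₀ + (y t - y t')) * Real.log n : ℝ) : ℂ) * Complex.I))
        = a m * (starRingEnd ℂ) (a n) *
          (Complex.exp (((-((t₀ + (y t - y t')) * Real.log m) : ℝ) : ℂ) * Complex.I) *
          Complex.exp ((((t₀ + (y t - y t')) * Real.log n : ℝ) : ℂ) * Complex.I)) := by ring
      _ = _ := by rw [h3]; ring
  have h4 : ((∑ t ∈ T, ∑ t' ∈ T, ‖DP N a (t₀ + (y t - y t'))‖ ^ 2 : ℝ) : ℂ) =
      ∑ m ∈ Icc 1 N, ∑ n ∈ Icc 1 N, (a m * (starRingEnd ℂ) (a n) *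
        Complex.exp ((t₀ * (Real.log n - Real.log m) : ℝ) * Complex.I)) *
        ∑ t ∈ T, ∑ t' ∈ T, (Complex.exp (((Real.log n - Real.log m) * y t : ℝ) * Complex.I) *
          (starRingEnd ℂ) (Complex.exp (((Real.log n - Real.log m) * y t' : ℝ) * Complex.I))) := by
    rw [Complex.ofReal_sum]
    calc ∑ t ∈ T, ((∑ t' ∈ T, ‖DP N a (t₀ + (y t - y t'))‖ ^ 2 : ℝ) : ℂ)
        = ∑ t ∈ T, ∑ t' ∈ T, ∑ m ∈ Icc 1 N, ∑ n ∈ Icc 1 N, (a m * (starRingEnd ℂ) (a n) *
        Complex.exp ((t₀ * (Real.log n - Real.log m) : ℝ) * Complex.I)) *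
        (Complex.exp (((Real.log n - Real.log m) * y t : ℝ) * Complex.I) *
          (starRingEnd ℂ)
            (Complex.exp (((Real.log n - Real.log m) * y t' : ℝ) * Complex.I))) := by
          apply sum_congr rfl
          intro t ht
          rw [Complex.ofReal_sum]
          exact sum_congr rfl (fun t' ht' => hterm t ht t' ht')
      _ = ∑ m ∈ Icc 1 N, ∑ n ∈ Icc 1 N, ∑ t ∈ T, ∑ t' ∈ T, (a m * (starRingEnd ℂ) (a n) *
        Complex.exp ((t₀ * (Real.log n - Real.log m) : ℝ) * Complex.I)) *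
        (Complex.exp (((Real.log n - Real.log m) * y t : ℝ) * Complex.I) *
          (starRingEnd ℂ)
            (Complex.exp (((Real.log n - Real.log m) * y t' : ℝ) * Complex.I))) := by
          rw [sum_congr rfl (fun t _ => sum_comm), sum_comm]
          apply sum_congr rfl
          intro m _
          rw [sum_congr rfl (fun t _ => sum_comm), sum_comm]
      _ = _ := by
          apply sum_congr rfl
          intro m _
          apply sum_congr rfl
          intro n _
          rw [mul_sum]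
          apply sum_congr rfl
          intro t _
          rw [mul_sum]
  have h5 : ∑ t ∈ T, ∑ t' ∈ T, ‖DP N a (t₀ + (y t - y t'))‖ ^ 2 =
      ‖((∑ t ∈ T, ∑ t' ∈ T, ‖DP N a (t₀ + (y t - y t'))‖ ^ 2 : ℝ) : ℂ)‖ := by
    rw [Complex.norm_real, Real.norm_eq_abs,
      abs_of_nonneg (sum_nonneg (fun _ _ => sum_nonneg (fun _ _ => by positivity)))]
  rw [h5, h4]
  unfold GY
  refine (norm_sum_le _ _).trans (sum_le_sum fun m _ => (norm_sum_le _ _).trans
    (sum_le_sum fun n _ => ?_))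
  rw [norm_mul, norm_mul, norm_mul, Complex.norm_exp_ofReal_mul_I, mul_one]
  have h6 : ‖(starRingEnd ℂ) (a n)‖ ≤ 1 := by
    rw [RCLike.norm_conj]; exact ha n
  have h7 : ‖a m‖ * ‖(starRingEnd ℂ) (a n)‖ ≤ 1 := by
    have := ha m
    nlinarith [norm_nonneg (a m), norm_nonneg ((starRingEnd ℂ) (a n))]
  have h8 : ‖∑ t ∈ T, ∑ t' ∈ T,
      (Complex.exp (((Real.log n - Real.log m) * y t : ℝ) * Complex.I) *
      (starRingEnd ℂ) (Complex.exp (((Real.log n - Real.log m) * y t' : ℝ) * Complex.I)))‖ =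
      ∑ t ∈ T, ∑ t' ∈ T, Real.cos ((Real.log n - Real.log m) * (y t - y t')) := by
    rw [← sum_mul_sum, ← map_sum, Complex.mul_conj, Complex.norm_real, Real.norm_eq_abs,
      abs_of_nonneg (Complex.normSq_nonneg _), Complex.normSq_apply]
    have hre : (∑ t ∈ T,
        Complex.exp (((Real.log n - Real.log m) * y t : ℝ) * Complex.I)).re =
        ∑ t ∈ T, Real.cos ((Real.log n - Real.log m) * y t) := by
      rw [Complex.re_sum]
      apply sum_congr rfl
      intro t _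
      rw [Complex.exp_ofReal_mul_I_re]
    have him : (∑ t ∈ T,
        Complex.exp (((Real.log n - Real.log m) * y t : ℝ) * Complex.I)).im =
        ∑ t ∈ T, Real.sin ((Real.log n - Real.log m) * y t) := by
      rw [Complex.im_sum]
      apply sum_congr rfl
      intro t _
      rw [Complex.exp_ofReal_mul_I_im]
    rw [hre, him, cos_sum_sqY]
    ring
  rw [h8]
  have h9 : 0 ≤ ∑ t ∈ T, ∑ t' ∈ T,
      Real.cos ((Real.log n - Real.log m) * (y t - y t')) := by
    rw [← h8]; exact norm_nonneg _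
  nlinarith

end

/-- popularity: every `s ∈ A` is, up to a fixed translation, a difference of `|A|` pairs from
`A - A` -/
theorem popularY {G : Type} [AddCommGroup G] [DecidableEq G] (N : ℕ) (A : Finset G)
    (hA : A.Nonempty) (y : G →+ ℝ) (t₀ : ℝ) (a : ℕ → ℂ) (ha : ∀ n, ‖a n‖ ≤ 1) :
    A.card * ∑ s ∈ A, ‖DP N a (t₀ + y s)‖ ^ 2 ≤ GY N (A - A) y := by
  obtain ⟨u, hu⟩ := hA
  have h1 := diff_sumY N (A - A) y (t₀ + y u) a ha
  refine le_trans ?_ h1
  rw [← sum_product']
  have hinj : Set.InjOn (fun p : G × G => (p.1 - p.2, u - p.2)) (A ×ˢ A : Finset (G × G)) := by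
    rintro ⟨x, y⟩ _ ⟨x', y'⟩ _ h
    simp only [Prod.mk.injEq] at h
    obtain ⟨h1, h2⟩ := h
    have e1 : y = y' := sub_right_injective h2
    subst e1
    have e2 : x = x' := sub_left_injective h1
    rw [e2]
  have hsub : (A ×ˢ A).image (fun p : G × G => (p.1 - p.2, u - p.2)) ⊆ (A - A) ×ˢ (A - A) := by
    intro q hq
    obtain ⟨⟨x, y⟩, hxy, rfl⟩ := mem_image.1 hq
    rw [mem_product] at hxy
    rw [mem_product]
    exact ⟨sub_mem_sub hxy.1 hxy.2, sub_mem_sub hu hxy.2⟩
  have h2 : ∑ q ∈ (A ×ˢ A).image (fun p : G × G => (p.1 - p.2, u - p.2)),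
      ‖DP N a (t₀ + y u + (y q.1 - y q.2))‖ ^ 2 ≤
      ∑ q ∈ (A - A) ×ˢ (A - A), ‖DP N a (t₀ + y u + (y q.1 - y q.2))‖ ^ 2 :=
    sum_le_sum_of_subset_of_nonneg hsub (fun _ _ _ => by positivity)
  refine le_trans (le_of_eq ?_) h2
  rw [sum_image hinj, sum_product, mul_sum]
  apply sum_congr rfl
  intro x _
  have h3 : ∀ z ∈ A, ‖DP N a (t₀ + y u + (y (x - z) - y (u - z)))‖ ^ 2 =
      ‖DP N a (t₀ + y x)‖ ^ 2 := by
    intro z _
    congr 3
    rw [map_sub, map_sub]
    ring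
  rw [sum_congr rfl h3, sum_const, nsmul_eq_mul]

end Pool.Agent.K9h97.FD
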