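import Pool.Agent.K9h97.FD.A

set_option autoImplicit false

/-!
Large values of Dirichlet polynomials at linear images of sets of integer vectors: the average of the
double sum with respect to a measure with Fourier decay.
-/

namespace Pool.Agent.K9h97.FD

open Finset MeasureTheory Pool.Agent.TH961.AP
open scoped Pointwise

/-! ### sums of inverse powers -/

theorem sum_rank {α : Type} [DecidableEq α] (d : ℕ) (hd : 1 ≤ d) (β : ℝ) (hβ0 : 0 ≤ β)
    (hβ1 : β ≤ 1) (r : α → ℕ) (F : Finset α) (hr : ∀ x ∈ F, 1 ≤ r x)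
    (hc : ∀ k : ℕ, (F.filter (fun x => r x ≤ k)).card ≤ (2 * k + 1) ^ d) :
    ∑ x ∈ F, (r x : ℝ) ^ (-β) ≤ ∑ j ∈ range F.card, 3 * ((j : ℝ) + 1) ^ (-(β / d)) := by
  induction' hk : F.card with k ih generalizing F
  · rw [card_eq_zero] at hk
    simp [hk]
  · have hne : F.Nonempty := by rw [← card_pos]; omega
    obtain ⟨x, hx, hmax⟩ := F.exists_max_image r hne
    rw [← Finset.add_sum_erase F _ hx, sum_range_succ, add_comm]
    apply add_le_add
    · apply ih (F.erase x) (fun z hz => hr z (mem_of_mem_erase hz))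
      · intro j
        refine le_trans (card_le_card ?_) (hc j)
        exact filter_subset_filter _ (erase_subset _ _)
      · rw [card_erase_of_mem hx, hk]; rfl
    · have h1 : F.filter (fun z => r z ≤ r x) = F := filter_true_of_mem hmax
      have h2 := hc (r x)
      rw [h1, hk] at h2
      have hrx := hr x hx
      have h3 : (2 * r x + 1) ^ d ≤ (3 * r x) ^ d := Nat.pow_le_pow_left (by omega) d
      have h4 : ((k : ℝ) + 1) ≤ (3 * (r x : ℝ)) ^ d := by
        have := h2.trans h3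
        exact_mod_cast this
      have hrp : (0 : ℝ) < r x := by exact_mod_cast hrx
      have hd0 : (0 : ℝ) < d := by exact_mod_cast hd
      have hk0 : (0 : ℝ) < (k : ℝ) + 1 := by positivity
      have h5 : (3 * (r x : ℝ)) ^ (-β) ≤ ((k : ℝ) + 1) ^ (-(β / d)) := by
        have e1 : (3 * (r x : ℝ)) ^ (-β) = ((3 * (r x : ℝ)) ^ d) ^ (-(β / d)) := by
          rw [← Real.rpow_natCast, ← Real.rpow_mul (by positivity)]
          congr 1
          field_simp
        rw [e1]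
        exact Real.rpow_le_rpow_of_nonpos hk0 h4 (by
          have : 0 ≤ β / d := by positivity
          linarith)
      have h6 : (r x : ℝ) ^ (-β) = 3 ^ β * (3 * (r x : ℝ)) ^ (-β) := by
        rw [Real.mul_rpow (by norm_num) hrp.le, ← mul_assoc, ← Real.rpow_add (by norm_num)]
        simp
      have h7 : (3 : ℝ) ^ β ≤ 3 := by
        calc (3 : ℝ) ^ β ≤ 3 ^ (1 : ℝ) := Real.rpow_le_rpow_of_exponent_le (by norm_num) hβ1
          _ = 3 := Real.rpow_one 3
      rw [h6]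
      exact mul_le_mul h7 h5 (by positivity) (by norm_num)

theorem sum_pow_le (M : ℕ) (γ : ℝ) (hγ : γ ≤ 1) :
    ∑ j ∈ range M, 3 * ((j : ℝ) + 1) ^ (-γ) ≤ 3 * (M : ℝ) ^ (1 - γ) * (1 + Real.log M) := by
  have h := harmonic_le_one_add_log M
  have h1 : ∑ j ∈ range M, 1 / ((j : ℝ) + 1) ≤ 1 + Real.log M := by
    refine le_trans (le_of_eq ?_) h
    rw [harmonic]
    push_cast
    simp [one_div]
  calc ∑ j ∈ range M, 3 * ((j : ℝ) + 1) ^ (-γ)
      ≤ ∑ j ∈ range M, 3 * (M : ℝ) ^ (1 - γ) * (1 / ((j : ℝ) + 1)) := by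
        apply sum_le_sum
        intro j hj
        rw [mem_range] at hj
        have hj0 : (0 : ℝ) < (j : ℝ) + 1 := by positivity
        have hjM : (j : ℝ) + 1 ≤ M := by exact_mod_cast hj
        have e1 : ((j : ℝ) + 1) ^ (-γ) = ((j : ℝ) + 1) ^ (1 - γ) * (1 / ((j : ℝ) + 1)) := by
          rw [sub_eq_add_neg, Real.rpow_add hj0, Real.rpow_one]
          field_simp
        rw [e1]
        have e2 : ((j : ℝ) + 1) ^ (1 - γ) ≤ (M : ℝ) ^ (1 - γ) :=
          Real.rpow_le_rpow hj0.le hjM (by linarith)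
        have e3 : 0 ≤ 1 / ((j : ℝ) + 1) := by positivity
        nlinarith [mul_le_mul_of_nonneg_right e2 e3]
    _ = 3 * (M : ℝ) ^ (1 - γ) * ∑ j ∈ range M, 1 / ((j : ℝ) + 1) := by rw [mul_sum]
    _ ≤ _ := by gcongr

/-- the distance of two integer vectors in the maximum norm -/
def dist0 {d : ℕ} (t t' : Fin d → ℤ) : ℕ := univ.sup fun i => (t i - t' i).natAbs

theorem dist0_pos {d : ℕ} {t t' : Fin d → ℤ} (h : t ≠ t') : 1 ≤ dist0 t t' := by
  by_contra hc
  apply h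
  have h0 : dist0 t t' = 0 := by omega
  funext i
  have h1 : (t i - t' i).natAbs ≤ dist0 t t' := le_sup (f := fun i => (t i - t' i).natAbs) (mem_univ i)
  rw [h0] at h1
  omega

theorem dist0_attained {d : ℕ} (hd : 1 ≤ d) (t t' : Fin d → ℤ) :
    ∃ i, dist0 t t' = (t i - t' i).natAbs := by
  have hne : (univ : Finset (Fin d)).Nonempty := ⟨⟨0, hd⟩, mem_univ _⟩
  obtain ⟨i, -, hi⟩ := exists_mem_eq_sup (univ : Finset (Fin d)) hne fun i => (t i - t' i).natAbs
  exact ⟨i, hi⟩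

theorem dist0_count {d : ℕ} (t : Fin d → ℤ) (F : Finset (Fin d → ℤ)) (k : ℕ) :
    (F.filter (fun t' => dist0 t t' ≤ k)).card ≤ (2 * k + 1) ^ d := by
  have h1 : F.filter (fun t' => dist0 t t' ≤ k) ⊆
      Fintype.piFinset fun i => Icc (t i - k) (t i + k) := by
    intro t' ht'
    rw [mem_filter] at ht'
    rw [Fintype.mem_piFinset]
    intro i
    have h2 : (t i - t' i).natAbs ≤ dist0 t t' :=
      le_sup (f := fun i => (t i - t' i).natAbs) (mem_univ i)
    rw [mem_Icc]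
    omega
  refine (card_le_card h1).trans ?_
  rw [Fintype.card_piFinset]
  have h3 : ∀ i ∈ (univ : Finset (Fin d)), (Icc (t i - (k : ℤ)) (t i + k)).card ≤ 2 * k + 1 := by
    intro i _
    rw [Int.card_Icc]
    omega
  refine (prod_le_pow_card _ _ _ h3).trans ?_
  simp

theorem sum_dist {d : ℕ} (hd : 1 ≤ d) (β : ℝ) (hβ0 : 0 < β) (hβ1 : β ≤ 1)
    (T : Finset (Fin d → ℤ)) (t : Fin d → ℤ) :
    ∑ t' ∈ T, (dist0 t t' : ℝ) ^ (-β) ≤
      3 * (T.card : ℝ) ^ (1 - β / d) * (1 + Real.log T.card) := by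
  classical
  have hd0 : (1 : ℝ) ≤ d := by exact_mod_cast hd
  have hγ : β / d ≤ 1 := by
    rw [div_le_one (by linarith)]
    linarith
  have h1 : ∑ t' ∈ T, (dist0 t t' : ℝ) ^ (-β) = ∑ t' ∈ T.erase t, (dist0 t t' : ℝ) ^ (-β) := by
    by_cases ht : t ∈ T
    · rw [← Finset.add_sum_erase T _ ht]
      have : dist0 t t = 0 := by simp [dist0]
      rw [this]
      have h2 : ((0 : ℕ) : ℝ) ^ (-β) = 0 := by
        rw [Nat.cast_zero]
        exact Real.zero_rpow (by linarith)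
      rw [h2, zero_add]
    · rw [erase_eq_of_notMem ht]
  rw [h1]
  refine (sum_rank d hd β hβ0.le hβ1 (dist0 t) (T.erase t) ?_ ?_).trans ?_
  · intro x hx
    exact dist0_pos (ne_of_mem_erase hx).symm
  · exact dist0_count t _
  · have h2 : (T.erase t).card ≤ T.card := card_erase_le
    refine le_trans ?_ (sum_pow_le T.card (β / d) hγ)
    exact sum_le_sum_of_subset_of_nonneg (range_mono h2) fun _ _ _ => by positivity

theorem sum_pairs0 {d : ℕ} (hd : 1 ≤ d) (β : ℝ) (hβ0 : 0 < β) (hβ1 : β ≤ 1)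
    (T : Finset (Fin d → ℤ)) :
    ∑ t ∈ T, ∑ t' ∈ T, (dist0 t t' : ℝ) ^ (-β) ≤
      T.card * (3 * (T.card : ℝ) ^ (1 - β / d) * (1 + Real.log T.card)) := by
  calc _ ≤ ∑ t ∈ T, 3 * (T.card : ℝ) ^ (1 - β / d) * (1 + Real.log T.card) :=
        sum_le_sum fun t _ => sum_dist hd β hβ0 hβ1 T t
    _ = _ := by rw [sum_const, nsmul_eq_mul]

theorem log_pow_le {N m n : ℕ} (β : ℝ) (hβ0 : 0 < β) (hβ1 : β ≤ 1) (hm : m ∈ Icc 1 N)
    (hn : n ∈ Icc 1 N) :
    |Real.log n - Real.log m| ^ (-β) ≤ N * (1 / |(n : ℝ) - m|) := by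
  by_cases hmn : m = n
  · subst hmn
    rw [sub_self, abs_zero, Real.zero_rpow (by linarith)]
    positivity
  · have h1 := log_inv_le hm hn
    have h0 : Real.log n - Real.log m ≠ 0 := fun h => hmn (log_ne hm hn h)
    have h2 : 0 < |Real.log n - Real.log m| := abs_pos.2 h0
    have h3 : (0 : ℝ) < |(n : ℝ) - m| := by
      apply abs_pos.2
      intro h
      apply hmn
      have : (n : ℝ) = m := by linarith
      exact_mod_cast this.symm
    have h4 : 1 ≤ (N : ℝ) * (1 / |(n : ℝ) - m|) := by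
      rw [mul_one_div, le_div_iff₀ h3, one_mul]
      rw [mem_Icc] at hm hn
      have a1 : (1 : ℝ) ≤ m := by exact_mod_cast hm.1
      have a2 : (1 : ℝ) ≤ n := by exact_mod_cast hn.1
      have a3 : (m : ℝ) ≤ N := by exact_mod_cast hm.2
      have a4 : (n : ℝ) ≤ N := by exact_mod_cast hn.2
      rw [abs_le]
      constructor <;> linarith
    calc |Real.log n - Real.log m| ^ (-β) = (1 / |Real.log n - Real.log m|) ^ β := by
          rw [Real.rpow_neg h2.le, one_div, Real.inv_rpow h2.le]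
      _ ≤ ((N : ℝ) * (1 / |(n : ℝ) - m|)) ^ β :=
          Real.rpow_le_rpow (by positivity) h1 hβ0.le
      _ ≤ ((N : ℝ) * (1 / |(n : ℝ) - m|)) ^ (1 : ℝ) :=
          Real.rpow_le_rpow_of_exponent_le h4 hβ1
      _ = _ := Real.rpow_one _

theorem sum_logs0 (N : ℕ) (β : ℝ) (hβ0 : 0 < β) (hβ1 : β ≤ 1) :
    ∑ m ∈ Icc 1 N, ∑ n ∈ Icc 1 N, |Real.log n - Real.log m| ^ (-β) ≤
      2 * (N : ℝ) ^ 2 * (1 + Real.log N) := by
  classical
  have h1 : ∑ m ∈ Icc 1 N, ∑ n ∈ Icc 1 N, |Real.log n - Real.log m| ^ (-β) ≤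
      N * ∑ m ∈ Icc 1 N, ∑ n ∈ Icc 1 N, 1 / |(n : ℝ) - m| := by
    rw [mul_sum]
    apply sum_le_sum
    intro m hm
    rw [mul_sum]
    apply sum_le_sum
    intro n hn
    exact log_pow_le β hβ0 hβ1 hm hn
  have h2 := sum_pairs ((Icc 1 N).image (fun n : ℕ => (n : ℤ)))
  have hinj : Set.InjOn (fun n : ℕ => (n : ℤ)) (Icc 1 N : Finset ℕ) := by
    intro x _ y _ h
    simpa using h
  rw [card_image_of_injOn hinj, sum_image hinj] at h2
  simp_rw [sum_image hinj] at h2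
  have h3 : ∑ m ∈ Icc 1 N, ∑ n ∈ Icc 1 N, 1 / |(n : ℝ) - m| =
      ∑ x ∈ Icc 1 N, ∑ y ∈ Icc 1 N, 1 / |(((x : ℕ) : ℤ) : ℝ) - (((y : ℕ) : ℤ) : ℝ)| := by
    apply sum_congr rfl
    intro x _
    apply sum_congr rfl
    intro y _
    rw [abs_sub_comm]
    push_cast
    rfl
  rw [← h3] at h2
  simp only [Nat.card_Icc, Nat.add_sub_cancel] at h2
  calc _ ≤ _ := h1
    _ ≤ N * (N * (2 * (1 + Real.log N))) := by gcongr
    _ = _ := by ring

/-! ### the average -/

/-- the linear map `s ↦ Λ ⟨x, s⟩` on the integer vectors -/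
noncomputable def lin {d : ℕ} (Λ : ℝ) (x : Fin d → ℝ) : (Fin d → ℤ) →+ ℝ where
  toFun s := Λ * ∑ i, x i * (s i : ℝ)
  map_zero' := by simp
  map_add' s t := by
    simp only [Pi.add_apply, Int.cast_add, mul_add, sum_add_distrib]

theorem lin_apply {d : ℕ} (Λ : ℝ) (x : Fin d → ℝ) (s : Fin d → ℤ) :
    lin Λ x s = Λ * ∑ i, x i * (s i : ℝ) := rfl

/-- the frequency -/
noncomputable def freq {d : ℕ} (u : ℝ) (t t' : Fin d → ℤ) : Fin d → ℝ :=
  fun i => u * ((t i : ℝ) - (t' i : ℝ))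

theorem freq_eq {d : ℕ} (Λ u : ℝ) (x : Fin d → ℝ) (t t' : Fin d → ℤ) :
    u * (lin Λ x t - lin Λ x t') = ∑ i, freq (Λ * u) t t' i * x i := by
  rw [lin_apply, lin_apply, ← mul_sub, ← sum_sub_distrib, mul_sum, mul_sum]
  apply sum_congr rfl
  intro i _
  unfold freq
  ring

theorem freq_norm {d : ℕ} (hd : 1 ≤ d) (u : ℝ) (t t' : Fin d → ℤ) :
    |u| * (dist0 t t' : ℝ) ≤ ‖freq u t t'‖ := by
  obtain ⟨i, hi⟩ := dist0_attained hd t t'
  refine le_trans (le_of_eq ?_) (norm_le_pi_norm (freq u t t') i)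
  rw [hi, freq, Real.norm_eq_abs, abs_mul, Nat.cast_natAbs]
  push_cast
  rfl

/-- Fourier decay of the measure `μ` -/
def Decays {d : ℕ} (μ : Measure (Fin d → ℝ)) (C β : ℝ) : Prop :=
  ∀ ξ : Fin d → ℝ, ξ ≠ 0 →
    ‖∫ x, Complex.exp (((∑ i, ξ i * x i : ℝ) : ℂ) * Complex.I) ∂μ‖ ≤ C * ‖ξ‖ ^ (-β)

theorem cos_cont {d : ℕ} (ξ : Fin d → ℝ) :
    Continuous fun x : Fin d → ℝ => Real.cos (∑ i, ξ i * x i) := by
  fun_prop

theorem cos_int {d : ℕ} (μ : Measure (Fin d → ℝ)) [IsProbabilityMeasure μ] (ξ : Fin d → ℝ) :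
    Integrable (fun x : Fin d → ℝ => Real.cos (∑ i, ξ i * x i)) μ := by
  refine Integrable.of_bound (C := 1) (cos_cont ξ).aestronglyMeasurable ?_
  exact Filter.Eventually.of_forall fun x => by
    rw [Real.norm_eq_abs]
    exact Real.abs_cos_le_one _

theorem int_cos {d : ℕ} (μ : Measure (Fin d → ℝ)) [IsProbabilityMeasure μ] (ξ : Fin d → ℝ) :
    ∫ x, Real.cos (∑ i, ξ i * x i) ∂μ ≤
      ‖∫ x, Complex.exp (((∑ i, ξ i * x i : ℝ) : ℂ) * Complex.I) ∂μ‖ := by
  have hint : Integrable (fun x : Fin d → ℝ =>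
      Complex.exp (((∑ i, ξ i * x i : ℝ) : ℂ) * Complex.I)) μ := by
    refine Integrable.of_bound (C := 1) ?_ ?_
    · apply Continuous.aestronglyMeasurable
      fun_prop
    · exact Filter.Eventually.of_forall fun x => by
        rw [Complex.norm_exp_ofReal_mul_I]
  have h1 : ∫ x, Real.cos (∑ i, ξ i * x i) ∂μ =
      (∫ x, Complex.exp (((∑ i, ξ i * x i : ℝ) : ℂ) * Complex.I) ∂μ).re := by
    have h2 := integral_re hint
    simp only [RCLike.re_eq_complex_re] at h2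
    rw [← h2]
    apply integral_congr_ae
    exact Filter.Eventually.of_forall fun x => (Complex.exp_ofReal_mul_I_re _).symm
  rw [h1]
  exact Complex.re_le_norm _

theorem int_cos_one {d : ℕ} (μ : Measure (Fin d → ℝ)) [IsProbabilityMeasure μ] (ξ : Fin d → ℝ) :
    ∫ x, Real.cos (∑ i, ξ i * x i) ∂μ ≤ 1 := by
  calc ∫ x, Real.cos (∑ i, ξ i * x i) ∂μ ≤ ∫ _x, (1 : ℝ) ∂μ :=
        integral_mono (cos_int μ ξ) (integrable_const _) fun x => Real.cos_le_one _
    _ = 1 := by simp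

theorem int_term {d : ℕ} (hd : 1 ≤ d) (μ : Measure (Fin d → ℝ)) [IsProbabilityMeasure μ]
    (C β Λ : ℝ) (hC : 0 ≤ C) (hβ0 : 0 < β) (hμ : Decays μ C β) (hΛ : 0 < Λ)
    {N m n : ℕ} (hm : m ∈ Icc 1 N) (hn : n ∈ Icc 1 N) (t t' : Fin d → ℤ) :
    ∫ x, Real.cos ((Real.log n - Real.log m) * (lin Λ x t - lin Λ x t')) ∂μ ≤
      (if m = n then 1 else 0) + (if t = t' then 1 else 0) +
        C * Λ ^ (-β) * (|Real.log n - Real.log m| ^ (-β) * (dist0 t t' : ℝ) ^ (-β)) := by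
  simp only [freq_eq]
  have hnn : 0 ≤ C * Λ ^ (-β) * (|Real.log n - Real.log m| ^ (-β) * (dist0 t t' : ℝ) ^ (-β)) := by
    positivity
  by_cases hmn : m = n
  · have := int_cos_one μ (freq (Λ * (Real.log n - Real.log m)) t t')
    rw [if_pos hmn]
    split_ifs <;> linarith
  by_cases htt : t = t'
  · have := int_cos_one μ (freq (Λ * (Real.log n - Real.log m)) t t')
    rw [if_pos htt]
    split_ifs <;> linarith
  rw [if_neg hmn, if_neg htt, add_zero, zero_add]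
  have h0 : Real.log n - Real.log m ≠ 0 := fun h => hmn (log_ne hm hn h)
  have h1 : 0 < |Real.log n - Real.log m| := abs_pos.2 h0
  have h2 : (0 : ℝ) < dist0 t t' := by exact_mod_cast dist0_pos htt
  have h3 := freq_norm hd (Λ * (Real.log n - Real.log m)) t t'
  rw [abs_mul, abs_of_pos hΛ] at h3
  have h4 : 0 < Λ * |Real.log n - Real.log m| * (dist0 t t' : ℝ) := by positivity
  have h5 : freq (Λ * (Real.log n - Real.log m)) t t' ≠ 0 := by
    intro h
    rw [h, norm_zero] at h3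
    linarith
  refine (int_cos μ _).trans ((hμ _ h5).trans ?_)
  have h6 : ‖freq (Λ * (Real.log n - Real.log m)) t t'‖ ^ (-β) ≤
      (Λ * |Real.log n - Real.log m| * (dist0 t t' : ℝ)) ^ (-β) :=
    Real.rpow_le_rpow_of_nonpos h4 h3 (by linarith)
  have h7 : (Λ * |Real.log n - Real.log m| * (dist0 t t' : ℝ)) ^ (-β) =
      Λ ^ (-β) * (|Real.log n - Real.log m| ^ (-β) * (dist0 t t' : ℝ) ^ (-β)) := by
    rw [Real.mul_rpow (by positivity) h2.le, Real.mul_rpow hΛ.le h1.le, mul_assoc]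
  rw [h7] at h6
  calc C * ‖freq (Λ * (Real.log n - Real.log m)) t t'‖ ^ (-β) ≤
        C * (Λ ^ (-β) * (|Real.log n - Real.log m| ^ (-β) * (dist0 t t' : ℝ) ^ (-β))) := by
        gcongr
    _ = _ := by ring

theorem GY_cont {d : ℕ} (N : ℕ) (T : Finset (Fin d → ℤ)) (Λ : ℝ) :
    Continuous fun x : Fin d → ℝ => GY N T (lin Λ x) := by
  unfold GY
  simp only [lin_apply]
  fun_prop

theorem int_GY {d : ℕ} (hd : 1 ≤ d) (μ : Measure (Fin d → ℝ)) [IsProbabilityMeasure μ]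
    (C β Λ : ℝ) (hC : 0 ≤ C) (hβ0 : 0 < β) (hβ1 : β ≤ 1) (hμ : Decays μ C β) (hΛ : 0 < Λ)
    (N : ℕ) (T : Finset (Fin d → ℤ)) :
    ∫ x, GY N T (lin Λ x) ∂μ ≤ N * (T.card : ℝ) ^ 2 + (N : ℝ) ^ 2 * T.card +
      C * Λ ^ (-β) * ((2 * (N : ℝ) ^ 2 * (1 + Real.log N)) *
        (T.card * (3 * (T.card : ℝ) ^ (1 - β / d) * (1 + Real.log T.card)))) := by
  classical
  have hcos : ∀ m n : ℕ, ∀ t t' : Fin d → ℤ, Integrable (fun x : Fin d → ℝ =>
      Real.cos ((Real.log n - Real.log m) * (lin Λ x t - lin Λ x t'))) μ := by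
    intro m n t t'
    simp only [freq_eq]
    exact cos_int μ _
  have h1 : ∫ x, GY N T (lin Λ x) ∂μ = ∑ m ∈ Icc 1 N, ∑ n ∈ Icc 1 N, ∑ t ∈ T, ∑ t' ∈ T,
      ∫ x, Real.cos ((Real.log n - Real.log m) * (lin Λ x t - lin Λ x t')) ∂μ := by
    unfold GY
    rw [integral_finsetSum _ fun m _ => integrable_finsetSum _ fun n _ =>
      integrable_finsetSum _ fun t _ => integrable_finsetSum _ fun t' _ => hcos m n t t']
    apply sum_congr rfl
    intro m _
    rw [integral_finsetSum _ fun n _ =>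
      integrable_finsetSum _ fun t _ => integrable_finsetSum _ fun t' _ => hcos m n t t']
    apply sum_congr rfl
    intro n _
    rw [integral_finsetSum _ fun t _ => integrable_finsetSum _ fun t' _ => hcos m n t t']
    apply sum_congr rfl
    intro t _
    rw [integral_finsetSum _ fun t' _ => hcos m n t t']
  rw [h1]
  have h3 := sum_le_sum (fun m (hm : m ∈ Icc 1 N) => sum_le_sum (fun n (hn : n ∈ Icc 1 N) =>
    sum_le_sum (fun t (_ : t ∈ T) => sum_le_sum (fun t' (_ : t' ∈ T) =>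
      int_term hd μ C β Λ hC hβ0 hμ hΛ hm hn t t'))))
  refine h3.trans ?_
  simp_rw [sum_add_distrib]
  have h4 : ∑ m ∈ Icc 1 N, ∑ n ∈ Icc 1 N, ∑ t ∈ T, ∑ t' ∈ T, (if m = n then (1 : ℝ) else 0) =
      N * (T.card : ℝ) ^ 2 := by
    simp only [sum_const, nsmul_eq_mul, mul_ite, mul_zero, sum_ite_eq]
    rw [sum_congr rfl (fun m hm => if_pos hm), sum_const, nsmul_eq_mul]
    simp only [Nat.card_Icc, Nat.add_sub_cancel]
    ring
  have h5 : ∑ m ∈ Icc 1 N, ∑ n ∈ Icc 1 N, ∑ t ∈ T, ∑ t' ∈ T, (if t = t' then (1 : ℝ) else 0) =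
      (N : ℝ) ^ 2 * T.card := by
    simp only [sum_const, nsmul_eq_mul, sum_ite_eq]
    rw [sum_congr rfl (fun t ht => if_pos ht), sum_const, nsmul_eq_mul]
    simp only [Nat.card_Icc, Nat.add_sub_cancel]
    ring
  have h6 : ∑ m ∈ Icc 1 N, ∑ n ∈ Icc 1 N, ∑ t ∈ T, ∑ t' ∈ T,
      C * Λ ^ (-β) * (|Real.log n - Real.log m| ^ (-β) * (dist0 t t' : ℝ) ^ (-β)) =
      C * Λ ^ (-β) * ((∑ m ∈ Icc 1 N, ∑ n ∈ Icc 1 N, |Real.log n - Real.log m| ^ (-β)) *
        ∑ t ∈ T, ∑ t' ∈ T, (dist0 t t' : ℝ) ^ (-β)) := by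
    rw [sum_mul, mul_sum]
    apply sum_congr rfl
    intro m _
    rw [sum_mul, mul_sum]
    apply sum_congr rfl
    intro n _
    rw [mul_sum, mul_sum]
    apply sum_congr rfl
    intro t _
    rw [mul_sum, mul_sum]
  rw [h4, h5, h6]
  have h7 := sum_logs0 N β hβ0 hβ1
  have h8 := sum_pairs0 hd β hβ0 hβ1 T
  have h9 : 0 ≤ ∑ t ∈ T, ∑ t' ∈ T, (dist0 t t' : ℝ) ^ (-β) :=
    sum_nonneg (fun _ _ => sum_nonneg (fun _ _ => by positivity))
  have h11 : 0 ≤ Real.log N := Real.log_natCast_nonneg N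
  have h12 := mul_le_mul h7 h8 h9 (by positivity)
  have h13 : 0 ≤ C * Λ ^ (-β) := by positivity
  have h14 := mul_le_mul_of_nonneg_left h12 h13
  linarith

end Pool.Agent.K9h97.FD
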