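import Pool.Agent.K9h97.FD.B

set_option autoImplicit false

/-!
Large values of Dirichlet polynomials at linear images of sets of integer vectors of large additive
energy.
-/

namespace Pool.Agent.K9h97.FD

open Finset MeasureTheory Pool.Agent.TH961.AP
open scoped Pointwise

theorem GY_int {d : ℕ} (μ : Measure (Fin d → ℝ)) [IsProbabilityMeasure μ] (N : ℕ)
    (T : Finset (Fin d → ℤ)) (Λ : ℝ) : Integrable (fun x : Fin d → ℝ => GY N T (lin Λ x)) μ := by
  unfold GY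
  refine integrable_finsetSum _ fun m _ => integrable_finsetSum _ fun n _ =>
      integrable_finsetSum _ fun t _ => integrable_finsetSum _ fun t' _ => ?_
  simp only [freq_eq]
  exact cos_int μ _

theorem excM {d : ℕ} (μ : Measure (Fin d → ℝ)) [IsProbabilityMeasure μ] (N : ℕ)
    (T : Finset (Fin d → ℤ)) (Λ η B : ℝ) (hη : 0 < η) (hB : 0 < B)
    (hint : ∫ x, GY N T (lin Λ x) ∂μ ≤ B) :
    μ {x | B / η ≤ GY N T (lin Λ x)} ≤ ENNReal.ofReal η := by
  have h1 := mul_meas_ge_le_integral_of_nonneg (μ := μ)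
    (f := fun x : Fin d → ℝ => GY N T (lin Λ x))
    (Filter.Eventually.of_forall (fun x => GY_nonneg N T _)) (GY_int μ N T Λ) (B / η)
  have hfin : μ {x | B / η ≤ GY N T (lin Λ x)} ≠ ⊤ := measure_ne_top μ _
  rw [← ENNReal.ofReal_toReal hfin]
  apply ENNReal.ofReal_le_ofReal
  have h4 : B / η * μ.real {x | B / η ≤ GY N T (lin Λ x)} ≤ B := h1.trans hint
  have h6 : B * μ.real {x | B / η ≤ GY N T (lin Λ x)} ≤ B * η := by
    calc B * μ.real {x | B / η ≤ GY N T (lin Λ x)} =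
        η * (B / η * μ.real {x | B / η ≤ GY N T (lin Λ x)}) := by field_simp
      _ ≤ η * B := by gcongr
      _ = _ := by ring
  exact le_of_mul_le_mul_left h6 hB

theorem scale {N M : ℝ} {γ β Λ : ℝ} (hN : 0 < N) (hM : 0 ≤ M) (hγ0 : 0 ≤ γ) (hγ1 : γ ≤ 1)
    (hΛ : 0 < Λ) (h : N ^ γ ≤ Λ ^ β) : Λ ^ (-β) * M ^ γ ≤ 1 + M / N := by
  have h1 : M ^ γ = (M / N) ^ γ * N ^ γ := by
    rw [← Real.mul_rpow (by positivity) hN.le]
    congr 1
    field_simp
  have h2 : (M / N) ^ γ ≤ 1 + M / N := by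
    have h0 : 0 ≤ M / N := by positivity
    rcases le_total (M / N) 1 with h3 | h3
    · have := Real.rpow_le_one h0 h3 hγ0
      linarith
    · have := Real.rpow_le_rpow_of_exponent_le h3 hγ1
      rw [Real.rpow_one] at this
      linarith
  have h3 : Λ ^ (-β) * Λ ^ β = 1 := by
    rw [← Real.rpow_add hΛ]
    simp
  have h4 : 0 ≤ Λ ^ (-β) := by positivity
  calc Λ ^ (-β) * M ^ γ = Λ ^ (-β) * ((M / N) ^ γ * N ^ γ) := by rw [h1]
    _ ≤ Λ ^ (-β) * ((1 + M / N) * Λ ^ β) := by gcongr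
    _ = (1 + M / N) * (Λ ^ (-β) * Λ ^ β) := by ring
    _ = _ := by rw [h3, mul_one]

theorem int_GY2 {d : ℕ} (hd : 1 ≤ d) (μ : Measure (Fin d → ℝ)) [IsProbabilityMeasure μ]
    (C β Λ : ℝ) (hC : 1 ≤ C) (hβ0 : 0 < β) (hβ1 : β ≤ 1) (hμ : Decays μ C β) (hΛ : 0 < Λ)
    (N : ℕ) (hN : 1 ≤ N) (hNΛ : (N : ℝ) ^ (1 - β / d) ≤ Λ ^ β) (T : Finset (Fin d → ℤ))
    (hT : T.Nonempty) :
    ∫ x, GY N T (lin Λ x) ∂μ ≤ 7 * C * ((1 + Real.log T.card) * (1 + Real.log N)) *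
      ((N : ℝ) ^ 2 * T.card + N * (T.card : ℝ) ^ 2) := by
  have h1 := int_GY hd μ C β Λ (by linarith) hβ0 hβ1 hμ hΛ N T
  have hNr : (1 : ℝ) ≤ N := by exact_mod_cast hN
  have hMr : (1 : ℝ) ≤ T.card := by exact_mod_cast hT.card_pos
  have hd0 : (1 : ℝ) ≤ d := by exact_mod_cast hd
  have hγ : β / d ≤ 1 := by
    rw [div_le_one (by linarith)]
    linarith
  have hγ0 : 0 ≤ β / d := by positivity
  have h2 := scale (N := (N : ℝ)) (M := (T.card : ℝ)) (γ := 1 - β / d) (β := β) (Λ := Λ)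
    (by linarith) (by linarith) (by linarith) (by linarith) hΛ hNΛ
  set M : ℝ := (T.card : ℝ) with hM
  have hlM : 0 ≤ Real.log M := Real.log_nonneg hMr
  have hlN : 0 ≤ Real.log N := Real.log_nonneg hNr
  set L : ℝ := (1 + Real.log M) * (1 + Real.log N) with hL
  have hL1 : 1 ≤ L := by
    rw [hL]; nlinarith
  have h3 : C * Λ ^ (-β) * ((2 * (N : ℝ) ^ 2 * (1 + Real.log N)) *
        (M * (3 * M ^ (1 - β / d) * (1 + Real.log M)))) =
      6 * C * L * ((N : ℝ) ^ 2 * M) * (Λ ^ (-β) * M ^ (1 - β / d)) := by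
    rw [hL]; ring
  rw [h3] at h1
  have h4 : 6 * C * L * ((N : ℝ) ^ 2 * M) * (Λ ^ (-β) * M ^ (1 - β / d)) ≤
      6 * C * L * ((N : ℝ) ^ 2 * M) * (1 + M / N) := by
    gcongr
  have h5 : (N : ℝ) ^ 2 * M * (1 + M / N) = (N : ℝ) ^ 2 * M + N * M ^ 2 := by
    field_simp
  have h6 : 6 * C * L * ((N : ℝ) ^ 2 * M) * (1 + M / N) =
      6 * (C * L) * ((N : ℝ) ^ 2 * M + N * M ^ 2) := by
    rw [← h5]; ring
  have h7 : 1 ≤ C * L := by nlinarith
  have h8 : 0 ≤ (N : ℝ) ^ 2 * M + N * M ^ 2 := by positivity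
  calc _ ≤ _ := h1
    _ ≤ ((N : ℝ) ^ 2 * M + N * M ^ 2) + 6 * (C * L) * ((N : ℝ) ^ 2 * M + N * M ^ 2) := by
        linarith
    _ ≤ (C * L) * ((N : ℝ) ^ 2 * M + N * M ^ 2) +
        6 * (C * L) * ((N : ℝ) ^ 2 * M + N * M ^ 2) := by nlinarith
    _ = _ := by ring

/-- generic images of a set of small doubling: mean square bound off one exceptional set -/
theorem small_doublingM {d : ℕ} (hd : 1 ≤ d) (μ : Measure (Fin d → ℝ)) [IsProbabilityMeasure μ]
    (C β Λ : ℝ) (hC : 1 ≤ C) (hβ0 : 0 < β) (hβ1 : β ≤ 1) (hμ : Decays μ C β) (hΛ : 0 < Λ)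
    (N : ℕ) (hN : 1 ≤ N) (hNΛ : (N : ℝ) ^ (1 - β / d) ≤ Λ ^ β) (A : Finset (Fin d → ℤ))
    (hA : A.Nonempty) (K η : ℝ) (hη : 0 < η) (hK : ((A - A).card : ℝ) ≤ K * A.card) :
    ∃ E : Set (Fin d → ℝ), MeasurableSet E ∧ μ E ≤ ENNReal.ofReal η ∧ ∀ x ∉ E,
      ∀ (a : ℕ → ℂ) (t₀ : ℝ), (∀ n, ‖a n‖ ≤ 1) →
      ∑ s ∈ A, ‖DP N a (t₀ + lin Λ x s)‖ ^ 2 ≤
        7 * C * ((1 + Real.log (K * A.card)) * (1 + Real.log N)) * K / η *
          ((N : ℝ) ^ 2 + K * N * A.card) := by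
  classical
  have hA1 : (1 : ℝ) ≤ A.card := by exact_mod_cast hA.card_pos
  have hA0 : (0 : ℝ) < A.card := by linarith
  set T := A - A with hT
  have hTne : T.Nonempty := hA.sub hA
  have hT1 : (1 : ℝ) ≤ T.card := by exact_mod_cast hTne.card_pos
  have hT0 : (0 : ℝ) < T.card := by linarith
  have hNr : (1 : ℝ) ≤ N := by exact_mod_cast hN
  have hlT : 0 ≤ Real.log T.card := Real.log_nonneg hT1
  have hlN : 0 ≤ Real.log N := Real.log_nonneg hNr
  set B : ℝ := 7 * C * ((1 + Real.log T.card) * (1 + Real.log N)) *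
      ((N : ℝ) ^ 2 * T.card + N * (T.card : ℝ) ^ 2) with hB
  have hB0 : 0 < B := by positivity
  have hint := int_GY2 hd μ C β Λ hC hβ0 hβ1 hμ hΛ N hN hNΛ T hTne
  rw [← hB] at hint
  refine ⟨{x | B / η ≤ GY N T (lin Λ x)},
    measurableSet_le measurable_const (GY_cont N T Λ).measurable,
    excM μ N T Λ η B hη hB0 hint, ?_⟩
  intro x hx a t₀ ha
  have hx' : GY N T (lin Λ x) < B / η := not_le.1 hx
  have h2 := popularY N A hA (lin Λ x) t₀ a ha
  rw [← hT] at h2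
  have h3 : A.card * ∑ s ∈ A, ‖DP N a (t₀ + lin Λ x s)‖ ^ 2 ≤ B / η := h2.trans hx'.le
  have hK0 : 0 < K := by
    by_contra h
    have : K * A.card ≤ 0 := mul_nonpos_of_nonpos_of_nonneg (not_lt.1 h) hA0.le
    linarith
  have hlog : Real.log T.card ≤ Real.log (K * A.card) := Real.log_le_log hT0 hK
  have hlKA : 0 ≤ Real.log (K * A.card) := hlT.trans hlog
  have h4 : B ≤ 7 * C * ((1 + Real.log (K * A.card)) * (1 + Real.log N)) *
      (K * A.card * ((N : ℝ) ^ 2 + K * N * A.card)) := by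
    rw [hB]
    have e1 : (N : ℝ) ^ 2 * T.card + N * (T.card : ℝ) ^ 2 ≤
        K * A.card * ((N : ℝ) ^ 2 + K * N * A.card) := by
      calc (N : ℝ) ^ 2 * T.card + N * (T.card : ℝ) ^ 2
          ≤ (N : ℝ) ^ 2 * (K * A.card) + N * (K * A.card) ^ 2 := by gcongr
        _ = _ := by ring
    gcongr
  have h5 : A.card * ∑ s ∈ A, ‖DP N a (t₀ + lin Λ x s)‖ ^ 2 ≤ A.card *
      (7 * C * ((1 + Real.log (K * A.card)) * (1 + Real.log N)) * K / η *
          ((N : ℝ) ^ 2 + K * N * A.card)) := by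
    calc _ ≤ B / η := h3
      _ ≤ (7 * C * ((1 + Real.log (K * A.card)) * (1 + Real.log N)) *
      (K * A.card * ((N : ℝ) ^ 2 + K * N * A.card))) / η := by gcongr
      _ = _ := by ring
  exact le_of_mul_le_mul_left h5 hA0

/-- generic images of a set of large additive energy: large values -/
theorem large_energyM {d : ℕ} (hd : 1 ≤ d) (μ : Measure (Fin d → ℝ)) [IsProbabilityMeasure μ]
    (C β Λ : ℝ) (hC : 1 ≤ C) (hβ0 : 0 < β) (hβ1 : β ≤ 1) (hμ : Decays μ C β) (hΛ : 0 < Λ)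
    (N : ℕ) (hN : 1 ≤ N) (hNΛ : (N : ℝ) ^ (1 - β / d) ≤ Λ ^ β) (S : Finset (Fin d → ℤ))
    (K η : ℝ) (hK1 : 1 ≤ K) (hη : 0 < η) (hE : (S.card : ℝ) ^ 3 ≤ K * (S.addEnergy S : ℕ)) :
    ∃ E : Set (Fin d → ℝ), MeasurableSet E ∧ μ E ≤ ENNReal.ofReal η ∧ ∀ x ∉ E,
      ∀ (a : ℕ → ℂ) (t₀ V : ℝ), (∀ n, ‖a n‖ ≤ 1) → 0 < V →
      2 ^ 52 * C * K ^ 20 * (N * ((1 + Real.log (K * S.card)) * (1 + Real.log N))) ≤ η * V ^ 2 →
      (∀ s ∈ S, V ≤ ‖DP N a (t₀ + lin Λ x s)‖) →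
      (S.card : ℝ) ≤ 2 ^ 33 * C * K ^ 11 / η * ((N : ℝ) ^ 2 / V ^ 2) *
        ((1 + Real.log (K * S.card)) * (1 + Real.log N)) := by
  classical
  rcases S.eq_empty_or_nonempty with hS | hS
  · refine ⟨∅, MeasurableSet.empty, by simp, ?_⟩
    intro x _ a t₀ V _ hV _ _
    rw [hS]
    simp only [card_empty, Nat.cast_zero, mul_zero, Real.log_zero, add_zero, one_mul]
    have : 0 ≤ Real.log N := Real.log_natCast_nonneg N
    positivity
  · have hK0 : 0 < K := by linarith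
    obtain ⟨B, hBS, hBne, hB1, hB2⟩ := Pool.Agent.H217R3.AK.bsg S hS K hK0 hE
    obtain ⟨E, hE1, hE2, hE3⟩ := small_doublingM hd μ C β Λ hC hβ0 hβ1 hμ hΛ N hN hNΛ B hBne
      (2 ^ 22 * K ^ 10) η hη hB2
    refine ⟨E, hE1, hE2, ?_⟩
    intro x hx a t₀ V ha hV hVN hlarge
    have h2 := hE3 x hx a t₀ ha
    have hB0 : (0 : ℝ) < B.card := by exact_mod_cast hBne.card_pos
    have hB11 : (1 : ℝ) ≤ B.card := by exact_mod_cast hBne.card_pos
    have hBS' : (B.card : ℝ) ≤ S.card := by exact_mod_cast card_le_card hBS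
    have h3 : (B.card : ℝ) * V ^ 2 ≤ ∑ s ∈ B, ‖DP N a (t₀ + lin Λ x s)‖ ^ 2 := by
      calc (B.card : ℝ) * V ^ 2 = ∑ s ∈ B, V ^ 2 := by rw [sum_const, nsmul_eq_mul]
        _ ≤ _ := sum_le_sum (fun s hs => by
            have := hlarge s (hBS hs)
            gcongr)
    have hNr : (1 : ℝ) ≤ N := by exact_mod_cast hN
    have hlN : 0 ≤ Real.log N := Real.log_nonneg hNr
    have hK10 : (1 : ℝ) ≤ K ^ 10 := one_le_pow₀ hK1
    set Q : ℝ := 2 ^ 22 * K ^ 10 with hQ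
    have hQ1 : 1 ≤ Q := by rw [hQ]; nlinarith
    have hQ0 : 0 < Q := by linarith
    have hS1 : (1 : ℝ) ≤ S.card := by linarith
    have hKS : 1 ≤ K * S.card := by nlinarith
    have hlKS : 0 ≤ Real.log (K * S.card) := Real.log_nonneg hKS
    -- the logarithm
    have hlog : 1 + Real.log (Q * B.card) ≤ 17 * (1 + Real.log (K * S.card)) := by
      have e1 : Real.log (Q * B.card) ≤ Real.log (2 ^ 22 * (K * S.card) ^ 10) := by
        apply Real.log_le_log (by positivity)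
        rw [hQ, mul_pow]
        have : (B.card : ℝ) ≤ (S.card : ℝ) ^ 10 := by
          calc (B.card : ℝ) ≤ S.card := hBS'
            _ = (S.card : ℝ) ^ 1 := by ring
            _ ≤ (S.card : ℝ) ^ 10 := pow_le_pow_right₀ hS1 (by norm_num)
        calc 2 ^ 22 * K ^ 10 * (B.card : ℝ) ≤ 2 ^ 22 * K ^ 10 * (S.card : ℝ) ^ 10 := by gcongr
          _ = _ := by ring
      have e2 : Real.log (2 ^ 22 * (K * S.card) ^ 10) =
          22 * Real.log 2 + 10 * Real.log (K * S.card) := by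
        rw [Real.log_mul (by positivity) (by positivity), Real.log_pow, Real.log_pow]
        norm_num
      have e3 := Real.log_two_lt_d9
      linarith
    have hlQB : 0 ≤ Real.log (Q * B.card) := Real.log_nonneg (by nlinarith)
    set L : ℝ := (1 + Real.log (K * S.card)) * (1 + Real.log N) with hL
    have hL1 : 1 ≤ L := by rw [hL]; nlinarith
    have hLB : (1 + Real.log (Q * B.card)) * (1 + Real.log N) ≤ 17 * L := by
      calc _ ≤ 17 * (1 + Real.log (K * S.card)) * (1 + Real.log N) := by gcongr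
        _ = _ := by rw [hL]; ring
    have hC0 : 0 < C := by linarith
    have h4 : (B.card : ℝ) * V ^ 2 ≤ 7 * C * (17 * L) * Q / η *
        ((N : ℝ) ^ 2 + Q * N * B.card) := by
      refine (h3.trans h2).trans ?_
      gcongr
    -- absorb
    have h5 : 7 * C * (17 * L) * Q / η * (Q * N * B.card) ≤ (B.card : ℝ) * V ^ 2 / 2 := by
      have e1 : 238 * C * L * Q ^ 2 * N ≤ η * V ^ 2 := by
        refine le_trans ?_ hVN
        rw [hQ]
        have e0 : 0 ≤ C * L * K ^ 20 * N := by positivity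
        calc 238 * C * L * (2 ^ 22 * K ^ 10) ^ 2 * N = (238 * 2 ^ 44) * (C * L * K ^ 20 * N) := by
              ring
          _ ≤ 2 ^ 52 * (C * L * K ^ 20 * N) := by
              apply mul_le_mul_of_nonneg_right _ e0
              norm_num
          _ = _ := by ring
      have e2 : 7 * C * (17 * L) * Q / η * (Q * N * B.card) =
          (238 * C * L * Q ^ 2 * N) / η * (B.card / 2) := by
        field_simp
        ring
      rw [e2]
      have e3 : (238 * C * L * Q ^ 2 * N) / η ≤ V ^ 2 := by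
        rw [div_le_iff₀ hη]; linarith
      calc (238 * C * L * Q ^ 2 * N) / η * (B.card / 2) ≤ V ^ 2 * (B.card / 2) := by gcongr
        _ = _ := by ring
    have h6 : (B.card : ℝ) * V ^ 2 ≤ 238 * C * L * Q / η * (N : ℝ) ^ 2 := by
      have e1 : 7 * C * (17 * L) * Q / η * ((N : ℝ) ^ 2 + Q * N * B.card) =
          119 * C * L * Q / η * (N : ℝ) ^ 2 + 7 * C * (17 * L) * Q / η * (Q * N * B.card) := by
        ring
      rw [e1] at h4
      have e2 : 238 * C * L * Q / η * (N : ℝ) ^ 2 = 2 * (119 * C * L * Q / η * (N : ℝ) ^ 2) := by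
        ring
      rw [e2]
      linarith
    have hV2 : 0 < V ^ 2 := by positivity
    calc (S.card : ℝ) ≤ 8 * K * B.card := hB1
      _ = 8 * K * ((B.card : ℝ) * V ^ 2) / V ^ 2 := by field_simp
      _ ≤ 8 * K * (238 * C * L * Q / η * (N : ℝ) ^ 2) / V ^ 2 := by gcongr
      _ = 1904 * 2 ^ 22 * (C * K ^ 11 / η * ((N : ℝ) ^ 2 / V ^ 2) * L) := by rw [hQ]; ring
      _ ≤ 2 ^ 33 * (C * K ^ 11 / η * ((N : ℝ) ^ 2 / V ^ 2) * L) := by
          apply mul_le_mul_of_nonneg_right _ (by positivity)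
          norm_num
      _ = _ := by ring

end Pool.Agent.K9h97.FD
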