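import Pool.Agent.K9h97.FD.B

set_option autoImplicit false

/-!
Large values of Dirichlet polynomials at linear images of sets of integer vectors: the additive energy
of a set of large values.
-/

namespace Pool.Agent.K9h97.FD

open Finset MeasureTheory Pool.Agent.TH961.AP
open scoped Pointwise

section

variable {α : Type}

/-- the double sum over sums -/
theorem sum_sumY (N : ℕ) (T : Finset α) (y : α → ℝ) (t₀ : ℝ) (a : ℕ → ℂ) (ha : ∀ n, ‖a n‖ ≤ 1) :
    ∑ t ∈ T, ∑ t' ∈ T, ‖DP N a (t₀ + (y t + y t'))‖ ^ 2 ≤ GY N T y := by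
  have hterm : ∀ t ∈ T, ∀ t' ∈ T, ((‖DP N a (t₀ + (y t + y t'))‖ ^ 2 : ℝ) : ℂ) =
      ∑ m ∈ Icc 1 N, ∑ n ∈ Icc 1 N, (a m * (starRingEnd ℂ) (a n) *
        Complex.exp ((t₀ * (Real.log n - Real.log m) : ℝ) * Complex.I)) *
        (Complex.exp (((Real.log n - Real.log m) * y t : ℝ) * Complex.I) *
          Complex.exp (((Real.log n - Real.log m) * y t' : ℝ) * Complex.I)) := by
    intro t _ t' _
    have h1 : ((‖DP N a (t₀ + (y t + y t'))‖ ^ 2 : ℝ) : ℂ) =
        DP N a (t₀ + (y t + y t')) *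
          (starRingEnd ℂ) (DP N a (t₀ + (y t + y t'))) := by
      rw [Complex.mul_conj, Complex.normSq_eq_norm_sq]
    rw [h1]
    unfold DP
    rw [map_sum, Finset.sum_mul_sum]
    apply sum_congr rfl
    intro m hm
    apply sum_congr rfl
    intro n hn
    rw [cpow_eq m (mem_Icc.1 hm).1, cpow_eq n (mem_Icc.1 hn).1, map_mul, ← Complex.exp_conj]
    have h2 : (starRingEnd ℂ) (((-((t₀ + (y t + y t')) * Real.log n) : ℝ) : ℂ) * Complex.I) =
        (((t₀ + (y t + y t')) * Real.log n : ℝ) : ℂ) * Complex.I := by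
      rw [map_mul, Complex.conj_ofReal, Complex.conj_I]
      push_cast; ring
    rw [h2]
    have h3 : Complex.exp (((-((t₀ + (y t + y t')) * Real.log m) : ℝ) : ℂ) * Complex.I) *
        Complex.exp ((((t₀ + (y t + y t')) * Real.log n : ℝ) : ℂ) * Complex.I) =
        Complex.exp ((t₀ * (Real.log n - Real.log m) : ℝ) * Complex.I) *
        (Complex.exp (((Real.log n - Real.log m) * y t : ℝ) * Complex.I) *
          Complex.exp (((Real.log n - Real.log m) * y t' : ℝ) * Complex.I)) := by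
      rw [← Complex.exp_add, ← Complex.exp_add, ← Complex.exp_add]
      congr 1
      push_cast
      ring
    calc a m * Complex.exp (((-((t₀ + (y t + y t')) * Real.log m) : ℝ) : ℂ) * Complex.I) *
          ((starRingEnd ℂ) (a n) *
            Complex.exp ((((t₀ + (y t + y t')) * Real.log n : ℝ) : ℂ) * Complex.I))
        = a m * (starRingEnd ℂ) (a n) *
          (Complex.exp (((-((t₀ + (y t + y t')) * Real.log m) : ℝ) : ℂ) * Complex.I) *
          Complex.exp ((((t₀ + (y t + y t')) * Real.log n : ℝ) : ℂ) * Complex.I)) := by ring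
      _ = _ := by rw [h3]; ring
  have h4 : ((∑ t ∈ T, ∑ t' ∈ T, ‖DP N a (t₀ + (y t + y t'))‖ ^ 2 : ℝ) : ℂ) =
      ∑ m ∈ Icc 1 N, ∑ n ∈ Icc 1 N, (a m * (starRingEnd ℂ) (a n) *
        Complex.exp ((t₀ * (Real.log n - Real.log m) : ℝ) * Complex.I)) *
        ∑ t ∈ T, ∑ t' ∈ T, (Complex.exp (((Real.log n - Real.log m) * y t : ℝ) * Complex.I) *
          Complex.exp (((Real.log n - Real.log m) * y t' : ℝ) * Complex.I)) := by
    rw [Complex.ofReal_sum]
    calc ∑ t ∈ T, ((∑ t' ∈ T, ‖DP N a (t₀ + (y t + y t'))‖ ^ 2 : ℝ) : ℂ)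
        = ∑ t ∈ T, ∑ t' ∈ T, ∑ m ∈ Icc 1 N, ∑ n ∈ Icc 1 N, (a m * (starRingEnd ℂ) (a n) *
        Complex.exp ((t₀ * (Real.log n - Real.log m) : ℝ) * Complex.I)) *
        (Complex.exp (((Real.log n - Real.log m) * y t : ℝ) * Complex.I) *
            Complex.exp (((Real.log n - Real.log m) * y t' : ℝ) * Complex.I)) := by
          apply sum_congr rfl
          intro t ht
          rw [Complex.ofReal_sum]
          exact sum_congr rfl (fun t' ht' => hterm t ht t' ht')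
      _ = ∑ m ∈ Icc 1 N, ∑ n ∈ Icc 1 N, ∑ t ∈ T, ∑ t' ∈ T, (a m * (starRingEnd ℂ) (a n) *
        Complex.exp ((t₀ * (Real.log n - Real.log m) : ℝ) * Complex.I)) *
        (Complex.exp (((Real.log n - Real.log m) * y t : ℝ) * Complex.I) *
            Complex.exp (((Real.log n - Real.log m) * y t' : ℝ) * Complex.I)) := by
          rw [sum_congr rfl (fun t _ => sum_comm), sum_comm]
          apply sum_congr rfl
          intro m _
          rw [sum_congr rfl (fun t _ => sum_comm), sum_comm]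
      _ = _ := by
          apply sum_congr rfl
          intro m _
          apply sum_congr rfl
          intro n _
          rw [mul_sum]
          apply sum_congr rfl
          intro t _
          rw [mul_sum]
  have h5 : ∑ t ∈ T, ∑ t' ∈ T, ‖DP N a (t₀ + (y t + y t'))‖ ^ 2 =
      ‖((∑ t ∈ T, ∑ t' ∈ T, ‖DP N a (t₀ + (y t + y t'))‖ ^ 2 : ℝ) : ℂ)‖ := by
    rw [Complex.norm_real, Real.norm_eq_abs,
      abs_of_nonneg (sum_nonneg (fun _ _ => sum_nonneg (fun _ _ => by positivity)))]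
  rw [h5, h4]
  unfold GY
  refine (norm_sum_le _ _).trans (sum_le_sum fun m _ => (norm_sum_le _ _).trans
    (sum_le_sum fun n _ => ?_))
  rw [norm_mul, norm_mul, norm_mul, Complex.norm_exp_ofReal_mul_I, mul_one]
  have h6 : ‖(starRingEnd ℂ) (a n)‖ ≤ 1 := by
    rw [RCLike.norm_conj]; exact ha n
  have h7 : ‖a m‖ * ‖(starRingEnd ℂ) (a n)‖ ≤ 1 := by
    have := ha m
    nlinarith [norm_nonneg (a m), norm_nonneg ((starRingEnd ℂ) (a n))]
  have h8 : ‖∑ t ∈ T, ∑ t' ∈ T,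
      (Complex.exp (((Real.log n - Real.log m) * y t : ℝ) * Complex.I) *
      Complex.exp (((Real.log n - Real.log m) * y t' : ℝ) * Complex.I))‖ =
      ∑ t ∈ T, ∑ t' ∈ T, Real.cos ((Real.log n - Real.log m) * (y t - y t')) := by
    rw [← sum_mul_sum, norm_mul, ← sq, ← Complex.normSq_eq_norm_sq, Complex.normSq_apply]
    have hre : (∑ t ∈ T,
        Complex.exp (((Real.log n - Real.log m) * y t : ℝ) * Complex.I)).re =
        ∑ t ∈ T, Real.cos ((Real.log n - Real.log m) * y t) := by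
      rw [Complex.re_sum]
      apply sum_congr rfl
      intro t _
      rw [Complex.exp_ofReal_mul_I_re]
    have him : (∑ t ∈ T,
        Complex.exp (((Real.log n - Real.log m) * y t : ℝ) * Complex.I)).im =
        ∑ t ∈ T, Real.sin ((Real.log n - Real.log m) * y t) := by
      rw [Complex.im_sum]
      apply sum_congr rfl
      intro t _
      rw [Complex.exp_ofReal_mul_I_im]
    rw [hre, him, cos_sum_sqY]
    ring
  rw [h8]
  have h9 : 0 ≤ ∑ t ∈ T, ∑ t' ∈ T,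
      Real.cos ((Real.log n - Real.log m) * (y t - y t')) := by
    rw [← h8]; exact norm_nonneg _
  nlinarith

end

/-- the additive energy of a set of large values is bounded by the double sum -/
theorem energyY {G : Type} [AddCommGroup G] [DecidableEq G] (N : ℕ) (S : Finset G)
    (y : G →+ ℝ) (t₀ V : ℝ) (a : ℕ → ℂ) (ha : ∀ n, ‖a n‖ ≤ 1) (hV : 0 ≤ V)
    (h : ∀ s ∈ S, V ≤ ‖DP N a (t₀ + y s)‖) :
    V ^ 2 * (S.addEnergy S : ℕ) ≤ S.card * GY N S y := by
  -- the quadruples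
  set Q : Finset ((G × G) × G × G) :=
    ((S ×ˢ S) ×ˢ S ×ˢ S).filter (fun x => x.1.1 + x.2.1 = x.1.2 + x.2.2) with hQ
  have hE : S.addEnergy S = Q.card := rfl
  have h1 : V ^ 2 * (S.addEnergy S : ℕ) = ∑ _q ∈ Q, V ^ 2 := by
    rw [hE, sum_const, nsmul_eq_mul, mul_comm]
  have hinj : Set.InjOn (fun q : (G × G) × G × G => (q.2.2, q.1.1, q.2.1)) (Q : Set _) := by
    rintro ⟨⟨a1, a2⟩, b1, b2⟩ hq ⟨⟨c1, c2⟩, d1, d2⟩ hq' he
    simp only [Prod.mk.injEq] at he
    obtain ⟨e1, e2, e3⟩ := he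
    subst e1 e2 e3
    have k1 : a1 + b1 = a2 + b2 := (mem_filter.1 hq).2
    have k2 : a1 + b1 = c2 + b2 := (mem_filter.1 hq').2
    have : a2 = c2 := add_right_cancel (k1.symm.trans k2)
    rw [this]
  have h2 : ∑ _q ∈ Q, V ^ 2 ≤ ∑ q ∈ Q, ‖DP N a ((t₀ - y q.2.2) + (y q.1.1 + y q.2.1))‖ ^ 2 := by
    apply sum_le_sum
    rintro ⟨⟨a1, a2⟩, b1, b2⟩ hq
    rw [hQ, mem_filter] at hq
    obtain ⟨hq1, hq2⟩ := hq
    simp only [mem_product] at hq1
    have k1 : y a1 + y b1 = y a2 + y b2 := by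
      rw [← map_add, ← map_add]
      exact congrArg y hq2
    have k2 : (t₀ - y b2) + (y a1 + y b1) = t₀ + y a2 := by
      rw [k1]; ring
    show V ^ 2 ≤ ‖DP N a ((t₀ - y b2) + (y a1 + y b1))‖ ^ 2
    rw [k2]
    exact pow_le_pow_left₀ hV (h a2 hq1.1.2) 2
  have h3 : ∑ q ∈ Q, ‖DP N a ((t₀ - y q.2.2) + (y q.1.1 + y q.2.1))‖ ^ 2 =
      ∑ p ∈ Q.image (fun q : (G × G) × G × G => (q.2.2, q.1.1, q.2.1)),
        ‖DP N a ((t₀ - y p.1) + (y p.2.1 + y p.2.2))‖ ^ 2 := by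
    rw [sum_image hinj]
  have h4 : Q.image (fun q : (G × G) × G × G => (q.2.2, q.1.1, q.2.1)) ⊆ S ×ˢ S ×ˢ S := by
    intro p hp
    obtain ⟨⟨⟨a1, a2⟩, b1, b2⟩, hq, rfl⟩ := mem_image.1 hp
    rw [hQ, mem_filter] at hq
    simp only [mem_product] at hq ⊢
    exact ⟨hq.1.2.2, hq.1.1.1, hq.1.2.1⟩
  have h5 : ∑ p ∈ Q.image (fun q : (G × G) × G × G => (q.2.2, q.1.1, q.2.1)),
        ‖DP N a ((t₀ - y p.1) + (y p.2.1 + y p.2.2))‖ ^ 2 ≤
      ∑ p ∈ S ×ˢ S ×ˢ S, ‖DP N a ((t₀ - y p.1) + (y p.2.1 + y p.2.2))‖ ^ 2 :=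
    sum_le_sum_of_subset_of_nonneg h4 fun _ _ _ => by positivity
  have h6 : ∑ p ∈ S ×ˢ S ×ˢ S, ‖DP N a ((t₀ - y p.1) + (y p.2.1 + y p.2.2))‖ ^ 2 =
      ∑ b ∈ S, ∑ t ∈ S, ∑ t' ∈ S, ‖DP N a ((t₀ - y b) + (y t + y t'))‖ ^ 2 := by
    rw [sum_product]
    apply sum_congr rfl
    intro b _
    rw [sum_product]
  have h7 : ∑ b ∈ S, ∑ t ∈ S, ∑ t' ∈ S, ‖DP N a ((t₀ - y b) + (y t + y t'))‖ ^ 2 ≤
      ∑ _b ∈ S, GY N S y := sum_le_sum fun b _ => sum_sumY N S y (t₀ - y b) a ha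
  rw [sum_const, nsmul_eq_mul] at h7
  rw [h1]
  linarith [h2, h3.le, h5, h6.le, h7]

end Pool.Agent.K9h97.FD
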