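import Pool.Agent.K9h97.FD.D

set_option autoImplicit false

/-!
Large values of Dirichlet polynomials at generic linear images of one set of integer vectors.
-/

namespace Pool.Agent.K9h97.FD

open Finset MeasureTheory Pool.Agent.TH961.AP
open scoped Pointwise

theorem GY_int {d : ℕ} (μ : Measure (Fin d → ℝ)) [IsProbabilityMeasure μ] (N : ℕ)
    (T : Finset (Fin d → ℤ)) (Λ : ℝ) : Integrable (fun x : Fin d → ℝ => GY N T (lin Λ x)) μ := by
  unfold GY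
  refine integrable_finsetSum _ fun m _ => integrable_finsetSum _ fun n _ =>
      integrable_finsetSum _ fun t _ => integrable_finsetSum _ fun t' _ => ?_
  simp only [freq_eq]
  exact cos_int μ _

theorem excM {d : ℕ} (μ : Measure (Fin d → ℝ)) [IsProbabilityMeasure μ] (N : ℕ)
    (T : Finset (Fin d → ℤ)) (Λ η B : ℝ) (hη : 0 < η) (hB : 0 < B)
    (hint : ∫ x, GY N T (lin Λ x) ∂μ ≤ B) :
    μ {x | B / η ≤ GY N T (lin Λ x)} ≤ ENNReal.ofReal η := by
  have h1 := mul_meas_ge_le_integral_of_nonneg (μ := μ)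
    (f := fun x : Fin d → ℝ => GY N T (lin Λ x))
    (Filter.Eventually.of_forall (fun x => GY_nonneg N T _)) (GY_int μ N T Λ) (B / η)
  have hfin : μ {x | B / η ≤ GY N T (lin Λ x)} ≠ ⊤ := measure_ne_top μ _
  rw [← ENNReal.ofReal_toReal hfin]
  apply ENNReal.ofReal_le_ofReal
  have h4 : B / η * μ.real {x | B / η ≤ GY N T (lin Λ x)} ≤ B := h1.trans hint
  have h6 : B * μ.real {x | B / η ≤ GY N T (lin Λ x)} ≤ B * η := by
    calc B * μ.real {x | B / η ≤ GY N T (lin Λ x)} =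
        η * (B / η * μ.real {x | B / η ≤ GY N T (lin Λ x)}) := by field_simp
      _ ≤ η * B := by gcongr
      _ = _ := by ring
  exact le_of_mul_le_mul_left h6 hB

theorem scale {N M : ℝ} {γ β Λ : ℝ} (hN : 0 < N) (hM : 0 ≤ M) (hγ0 : 0 ≤ γ) (hγ1 : γ ≤ 1)
    (hΛ : 0 < Λ) (h : N ^ γ ≤ Λ ^ β) : Λ ^ (-β) * M ^ γ ≤ 1 + M / N := by
  have h1 : M ^ γ = (M / N) ^ γ * N ^ γ := by
    rw [← Real.mul_rpow (by positivity) hN.le]
    congr 1
    field_simp
  have h2 : (M / N) ^ γ ≤ 1 + M / N := by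
    have h0 : 0 ≤ M / N := by positivity
    rcases le_total (M / N) 1 with h3 | h3
    · have := Real.rpow_le_one h0 h3 hγ0
      linarith
    · have := Real.rpow_le_rpow_of_exponent_le h3 hγ1
      rw [Real.rpow_one] at this
      linarith
  have h3 : Λ ^ (-β) * Λ ^ β = 1 := by
    rw [← Real.rpow_add hΛ]
    simp
  have h4 : 0 ≤ Λ ^ (-β) := by positivity
  calc Λ ^ (-β) * M ^ γ = Λ ^ (-β) * ((M / N) ^ γ * N ^ γ) := by rw [h1]
    _ ≤ Λ ^ (-β) * ((1 + M / N) * Λ ^ β) := by gcongr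
    _ = (1 + M / N) * (Λ ^ (-β) * Λ ^ β) := by ring
    _ = _ := by rw [h3, mul_one]

theorem int_GY2 {d : ℕ} (hd : 1 ≤ d) (μ : Measure (Fin d → ℝ)) [IsProbabilityMeasure μ]
    (C β Λ : ℝ) (hC : 1 ≤ C) (hβ0 : 0 < β) (hβ1 : β ≤ 1) (hμ : Decays μ C β) (hΛ : 0 < Λ)
    (N : ℕ) (hN : 1 ≤ N) (hNΛ : (N : ℝ) ^ (1 - β / d) ≤ Λ ^ β) (T : Finset (Fin d → ℤ))
    (hT : T.Nonempty) :
    ∫ x, GY N T (lin Λ x) ∂μ ≤ 7 * C * ((1 + Real.log T.card) * (1 + Real.log N)) *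
      ((N : ℝ) ^ 2 * T.card + N * (T.card : ℝ) ^ 2) := by
  have h1 := int_GY hd μ C β Λ (by linarith) hβ0 hβ1 hμ hΛ N T
  have hNr : (1 : ℝ) ≤ N := by exact_mod_cast hN
  have hMr : (1 : ℝ) ≤ T.card := by exact_mod_cast hT.card_pos
  have hd0 : (1 : ℝ) ≤ d := by exact_mod_cast hd
  have hγ : β / d ≤ 1 := by
    rw [div_le_one (by linarith)]
    linarith
  have hγ0 : 0 ≤ β / d := by positivity
  have h2 := scale (N := (N : ℝ)) (M := (T.card : ℝ)) (γ := 1 - β / d) (β := β) (Λ := Λ)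
    (by linarith) (by linarith) (by linarith) (by linarith) hΛ hNΛ
  set M : ℝ := (T.card : ℝ) with hM
  have hlM : 0 ≤ Real.log M := Real.log_nonneg hMr
  have hlN : 0 ≤ Real.log N := Real.log_nonneg hNr
  set L : ℝ := (1 + Real.log M) * (1 + Real.log N) with hL
  have hL1 : 1 ≤ L := by
    rw [hL]; nlinarith
  have h3 : C * Λ ^ (-β) * ((2 * (N : ℝ) ^ 2 * (1 + Real.log N)) *
        (M * (3 * M ^ (1 - β / d) * (1 + Real.log M)))) =
      6 * C * L * ((N : ℝ) ^ 2 * M) * (Λ ^ (-β) * M ^ (1 - β / d)) := by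
    rw [hL]; ring
  rw [h3] at h1
  have h4 : 6 * C * L * ((N : ℝ) ^ 2 * M) * (Λ ^ (-β) * M ^ (1 - β / d)) ≤
      6 * C * L * ((N : ℝ) ^ 2 * M) * (1 + M / N) := by
    gcongr
  have h5 : (N : ℝ) ^ 2 * M * (1 + M / N) = (N : ℝ) ^ 2 * M + N * M ^ 2 := by
    field_simp
  have h6 : 6 * C * L * ((N : ℝ) ^ 2 * M) * (1 + M / N) =
      6 * (C * L) * ((N : ℝ) ^ 2 * M + N * M ^ 2) := by
    rw [← h5]; ring
  have h7 : 1 ≤ C * L := by nlinarith
  have h8 : 0 ≤ (N : ℝ) ^ 2 * M + N * M ^ 2 := by positivity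
  calc _ ≤ _ := h1
    _ ≤ ((N : ℝ) ^ 2 * M + N * M ^ 2) + 6 * (C * L) * ((N : ℝ) ^ 2 * M + N * M ^ 2) := by
        linarith
    _ ≤ (C * L) * ((N : ℝ) ^ 2 * M + N * M ^ 2) +
        6 * (C * L) * ((N : ℝ) ^ 2 * M + N * M ^ 2) := by nlinarith
    _ = _ := by ring

/-- from a bound for the energy to a bound for the number of large values -/
theorem of_energy {R E K V A B : ℝ} (hR : 0 < R) (hK : 0 < K) (hV : 0 < V)
    (hE : R ^ 3 ≤ K * E) (h : V ^ 2 * E ≤ A * R ^ 2 + B * R ^ 3) (hB : 2 * K * B ≤ V ^ 2) :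
    R ≤ 2 * K * A / V ^ 2 := by
  have hV2 : 0 < V ^ 2 := by positivity
  have h1 : V ^ 2 * R ^ 3 ≤ K * (A * R ^ 2 + B * R ^ 3) := by
    calc V ^ 2 * R ^ 3 ≤ V ^ 2 * (K * E) := by gcongr
      _ = K * (V ^ 2 * E) := by ring
      _ ≤ _ := by gcongr
  have h2 : 2 * K * B * R ^ 3 ≤ V ^ 2 * R ^ 3 := by gcongr
  have h3 : V ^ 2 * R ^ 3 ≤ 2 * K * A * R ^ 2 := by linarith
  rw [le_div_iff₀ hV2]
  have h4 : R ^ 2 * (R * V ^ 2) ≤ R ^ 2 * (2 * K * A) := by linarith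
  exact le_of_mul_le_mul_left h4 (by positivity)

/-- generic images of a set of large additive energy: large values -/
theorem large_energyM {d : ℕ} (hd : 1 ≤ d) (μ : Measure (Fin d → ℝ)) [IsProbabilityMeasure μ]
    (C β Λ : ℝ) (hC : 1 ≤ C) (hβ0 : 0 < β) (hβ1 : β ≤ 1) (hμ : Decays μ C β) (hΛ : 0 < Λ)
    (N : ℕ) (hN : 1 ≤ N) (hNΛ : (N : ℝ) ^ (1 - β / d) ≤ Λ ^ β) (S : Finset (Fin d → ℤ))
    (K η : ℝ) (hK1 : 1 ≤ K) (hη : 0 < η) (hE : (S.card : ℝ) ^ 3 ≤ K * (S.addEnergy S : ℕ)) :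
    ∃ E : Set (Fin d → ℝ), MeasurableSet E ∧ μ E ≤ ENNReal.ofReal η ∧ ∀ x ∉ E,
      ∀ (a : ℕ → ℂ) (t₀ V : ℝ), (∀ n, ‖a n‖ ≤ 1) → 0 < V →
      14 * C * K * ((1 + Real.log S.card) * (1 + Real.log N)) * N ≤ η * V ^ 2 →
      (∀ s ∈ S, V ≤ ‖DP N a (t₀ + lin Λ x s)‖) →
      (S.card : ℝ) ≤ 14 * C * K / η * ((1 + Real.log S.card) * (1 + Real.log N)) *
        ((N : ℝ) ^ 2 / V ^ 2) := by
  classical
  rcases S.eq_empty_or_nonempty with hS | hS
  · refine ⟨∅, MeasurableSet.empty, by simp, ?_⟩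
    intro x _ a t₀ V _ hV _ _
    rw [hS]
    simp only [card_empty, Nat.cast_zero, Real.log_zero, add_zero, one_mul]
    have : 0 ≤ Real.log N := Real.log_natCast_nonneg N
    positivity
  · have hK0 : 0 < K := by linarith
    have hC0 : 0 < C := by linarith
    have hR1 : (1 : ℝ) ≤ S.card := by exact_mod_cast hS.card_pos
    have hNr : (1 : ℝ) ≤ N := by exact_mod_cast hN
    have hlS : 0 ≤ Real.log S.card := Real.log_nonneg hR1
    have hlN : 0 ≤ Real.log N := Real.log_nonneg hNr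
    have hint := int_GY2 hd μ C β Λ hC hβ0 hβ1 hμ hΛ N hN hNΛ S hS
    set L : ℝ := (1 + Real.log S.card) * (1 + Real.log N) with hL
    have hL0 : 0 < L := by rw [hL]; positivity
    set B : ℝ := 7 * C * L * ((N : ℝ) ^ 2 * S.card + N * (S.card : ℝ) ^ 2) with hB
    have hB0 : 0 < B := by positivity
    refine ⟨{x | B / η ≤ GY N S (lin Λ x)},
      measurableSet_le measurable_const (GY_cont N S Λ).measurable,
      excM μ N S Λ η B hη hB0 hint, ?_⟩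
    intro x hx a t₀ V ha hV hVN hlarge
    have hx' : GY N S (lin Λ x) < B / η := not_le.1 hx
    have h1 := energyY N S (lin Λ x) t₀ V a ha hV.le hlarge
    have h2 : V ^ 2 * (S.addEnergy S : ℕ) ≤
        (7 * C * L / η * (N : ℝ) ^ 2) * (S.card : ℝ) ^ 2 +
        (7 * C * L / η * N) * (S.card : ℝ) ^ 3 := by
      calc V ^ 2 * (S.addEnergy S : ℕ) ≤ S.card * GY N S (lin Λ x) := h1
        _ ≤ S.card * (B / η) := by gcongr
        _ = _ := by rw [hB]; ring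
    have h3 : 2 * K * (7 * C * L / η * N) ≤ V ^ 2 := by
      have : 2 * K * (7 * C * L / η * N) = (14 * C * K * L * N) / η := by ring
      rw [this, div_le_iff₀ hη]
      linarith
    have h4 := of_energy (R := (S.card : ℝ)) (by linarith) hK0 hV hE h2 h3
    refine h4.trans (le_of_eq ?_)
    ring

end Pool.Agent.K9h97.FD
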