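import Pool.Agent.K9h97.FD.D

set_option autoImplicit false

/-!
Large values of Dirichlet polynomials at generic linear images: a bound for the sum of `n^{iw}` at all
differences of the points of one finite set at the same time.
-/

namespace Pool.Agent.K9h97.FD

open Finset MeasureTheory Pool.Agent.TH961.AP
open scoped Pointwise

/-! ### ordered factorisations -/

theorem pow_le_two_powU (k : ℕ) : ∃ C : ℕ, 1 ≤ C ∧ ∀ v : ℕ, (v + 1) ^ k ≤ C * 2 ^ v := by
  have h1 : Filter.Tendsto (fun n : ℕ => (n : ℝ) ^ k / (2 : ℝ) ^ n) Filter.atTop (nhds 0) :=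
    tendsto_pow_const_div_const_pow_of_one_lt k (by norm_num)
  obtain ⟨B, hB⟩ := h1.bddAbove_range
  refine ⟨⌈2 * B⌉₊ + 1, by omega, fun v => ?_⟩
  have h2 := hB ⟨v + 1, rfl⟩
  simp only at h2
  have h3 : (0:ℝ) < (2:ℝ) ^ (v + 1) := by positivity
  rw [div_le_iff₀ h3] at h2
  have h4 : (((v + 1) ^ k : ℕ) : ℝ) ≤ (((⌈2 * B⌉₊ + 1) * 2 ^ v : ℕ) : ℝ) := by
    push_cast at h2 ⊢
    have h5 : 2 * B ≤ (⌈2 * B⌉₊ : ℝ) := Nat.le_ceil _
    have h6 : (0:ℝ) < (2:ℝ) ^ v := by positivity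
    calc ((v:ℝ) + 1) ^ k ≤ B * 2 ^ (v + 1) := h2
      _ = (2 * B) * 2 ^ v := by ring
      _ ≤ ((⌈2 * B⌉₊ : ℝ) + 1) * 2 ^ v := by
        apply mul_le_mul_of_nonneg_right _ h6.le
        linarith
  exact_mod_cast h4

theorem divisor_boundU (k : ℕ) : ∃ K : ℕ, ∀ n : ℕ, n ≠ 0 → (n.divisors.card) ^ k ≤ K * n := by
  obtain ⟨C, hC1, hC⟩ := pow_le_two_powU k
  refine ⟨∏ p ∈ range (2 ^ k), C, fun n hn => ?_⟩
  rw [Nat.card_divisors hn, ← Finset.prod_pow]
  conv_rhs => rw [← Nat.prod_factorization_pow_eq_self hn]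
  rw [Finsupp.prod, Nat.support_factorization]
  have h1 : ∀ p ∈ n.primeFactors, (n.factorization p + 1) ^ k ≤
      (if p < 2 ^ k then C else 1) * p ^ n.factorization p := by
    intro p hp
    have hp2 : 2 ≤ p := (Nat.prime_of_mem_primeFactors hp).two_le
    split_ifs with h
    · exact (hC _).trans (Nat.mul_le_mul_left _ (Nat.pow_le_pow_left hp2 _))
    · rw [one_mul]
      calc (n.factorization p + 1) ^ k ≤ (2 ^ n.factorization p) ^ k :=
            Nat.pow_le_pow_left Nat.lt_two_pow_self _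
        _ = (2 ^ k) ^ n.factorization p := by
            rw [← pow_mul, mul_comm, pow_mul]
        _ ≤ _ := Nat.pow_le_pow_left (by omega) _
  calc _ ≤ ∏ p ∈ n.primeFactors, (if p < 2 ^ k then C else 1) * p ^ n.factorization p :=
        Finset.prod_le_prod' h1
    _ = (∏ p ∈ n.primeFactors, (if p < 2 ^ k then C else 1)) *
        ∏ p ∈ n.primeFactors, p ^ n.factorization p := Finset.prod_mul_distrib
    _ ≤ _ := by
        apply Nat.mul_le_mul_right
        rw [← Finset.prod_filter]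
        apply Finset.prod_le_prod_of_subset_of_one_le'
        · intro p hp
          rw [Finset.mem_filter] at hp
          exact Finset.mem_range.mpr hp.2
        · intro i _ _
          exact hC1

/-- the number of ordered factorisations of `P` into `j` factors at most `N` -/
def rr (N j P : ℕ) : ℕ :=
  ((Fintype.piFinset fun _ : Fin j => Icc 1 N).filter (fun f => ∏ i, f i = P)).card

theorem rr_le (N j P : ℕ) (hP : P ≠ 0) : rr N j P ≤ (P.divisors.card) ^ j := by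
  unfold rr
  have h1 : (Fintype.piFinset fun _ : Fin j => Icc 1 N).filter (fun f => ∏ i, f i = P) ⊆
      Fintype.piFinset fun _ : Fin j => P.divisors := by
    intro f hf
    rw [mem_filter] at hf
    rw [Fintype.mem_piFinset]
    intro i
    rw [Nat.mem_divisors]
    refine ⟨?_, hP⟩
    rw [← hf.2]
    exact dvd_prod_of_mem f (mem_univ i)
  refine (card_le_card h1).trans (le_of_eq ?_)
  rw [Fintype.card_piFinset]
  simp

theorem rr_bound (j : ℕ) (hj : 1 ≤ j) : ∃ K : ℝ, 1 ≤ K ∧ ∀ N : ℕ, 1 ≤ N → ∀ P ∈ Icc 1 (N ^ j),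
    (rr N j P : ℝ) ^ 4 ≤ K * N := by
  obtain ⟨K, hK⟩ := divisor_boundU (4 * j * j)
  refine ⟨(K : ℝ) + 1, by linarith [Nat.cast_nonneg (α := ℝ) K], ?_⟩
  intro N hN P hP
  rw [mem_Icc] at hP
  have hP0 : P ≠ 0 := by omega
  have h1 := hK P hP0
  have h2 : ((rr N j P) ^ 4) ^ j ≤ ((K + 1) * N) ^ j := by
    calc ((rr N j P) ^ 4) ^ j ≤ (((P.divisors.card) ^ j) ^ 4) ^ j :=
          Nat.pow_le_pow_left (Nat.pow_le_pow_left (rr_le N j P hP0) 4) j
      _ = (P.divisors.card) ^ (4 * j * j) := by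
          rw [← pow_mul, ← pow_mul]
          congr 1
          ring
      _ ≤ K * P := h1
      _ ≤ (K + 1) * N ^ j := Nat.mul_le_mul (by omega) hP.2
      _ ≤ (K + 1) ^ j * N ^ j := Nat.mul_le_mul_right _ (Nat.le_self_pow (by omega) _)
      _ = _ := by rw [mul_pow]
  have h3 : (rr N j P) ^ 4 ≤ (K + 1) * N := by
    by_contra hc
    push Not at hc
    exact absurd h2 (not_le.2 (Nat.pow_lt_pow_left hc (by omega)))
  exact_mod_cast h3

/-! ### the sum `∑ n^{iw}` and its powers -/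

/-- `∑_{n ≤ N} n^{iw}` -/
noncomputable def ZZ (N : ℕ) (w : ℝ) : ℂ :=
  ∑ n ∈ Icc 1 N, Complex.exp (((w * Real.log n : ℝ) : ℂ) * Complex.I)

theorem ZZ_pow (N j : ℕ) (w : ℝ) :
    ZZ N w ^ j = ∑ P ∈ Icc 1 (N ^ j),
      ((rr N j P : ℝ) : ℂ) * Complex.exp (((w * Real.log P : ℝ) : ℂ) * Complex.I) := by
  have h1 : ZZ N w ^ j = ∏ _i : Fin j, ZZ N w := by
    rw [prod_const, card_univ, Fintype.card_fin]
  rw [h1]
  unfold ZZ
  rw [Finset.prod_univ_sum]
  have h2 : ∀ f ∈ Fintype.piFinset fun _ : Fin j => Icc 1 N,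
      ∏ i, Complex.exp (((w * Real.log (f i : ℕ) : ℝ) : ℂ) * Complex.I) =
        Complex.exp (((w * Real.log ((∏ i, f i : ℕ) : ℝ) : ℝ) : ℂ) * Complex.I) := by
    intro f hf
    rw [← Complex.exp_sum]
    congr 1
    rw [← sum_mul]
    congr 1
    rw [Fintype.mem_piFinset] at hf
    have h3 : Real.log ((∏ i, f i : ℕ) : ℝ) = ∑ i, Real.log (f i : ℕ) := by
      push_cast
      rw [Real.log_prod]
      intro i _
      have := (mem_Icc.1 (hf i)).1
      positivity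
    rw [h3, mul_sum]
    push_cast
    rfl
  rw [sum_congr rfl h2]
  have h4 : ∀ f ∈ Fintype.piFinset fun _ : Fin j => Icc 1 N, (∏ i, f i) ∈ Icc 1 (N ^ j) := by
    intro f hf
    rw [Fintype.mem_piFinset] at hf
    rw [mem_Icc]
    constructor
    · exact Nat.one_le_iff_ne_zero.2 (prod_ne_zero_iff.2 fun i _ => by
        have := (mem_Icc.1 (hf i)).1
        omega)
    · calc ∏ i, f i ≤ ∏ _i : Fin j, N := prod_le_prod' fun i _ => (mem_Icc.1 (hf i)).2
        _ = N ^ j := by rw [prod_const, card_univ, Fintype.card_fin]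
  rw [← sum_fiberwise_of_maps_to h4]
  apply sum_congr rfl
  intro P _
  have h5 : ∀ f ∈ (Fintype.piFinset fun _ : Fin j => Icc 1 N).filter (fun f => ∏ i, f i = P),
      Complex.exp (((w * Real.log ((∏ i, f i : ℕ) : ℝ) : ℝ) : ℂ) * Complex.I) =
        Complex.exp (((w * Real.log P : ℝ) : ℂ) * Complex.I) := by
    intro f hf
    rw [(mem_filter.1 hf).2]
  rw [sum_congr rfl h5, sum_const, nsmul_eq_mul]
  rfl

/-- the square of the modulus -/
theorem norm_sqU (F : Finset ℕ) (r : ℕ → ℝ) (w : ℝ) :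
    ‖∑ P ∈ F, ((r P : ℝ) : ℂ) * Complex.exp (((w * Real.log P : ℝ) : ℂ) * Complex.I)‖ ^ 2 =
      ∑ P ∈ F, ∑ Q ∈ F, r P * r Q * Real.cos ((Real.log Q - Real.log P) * w) := by
  rw [← Complex.normSq_eq_norm_sq, Complex.normSq_apply]
  have hre : (∑ P ∈ F, ((r P : ℝ) : ℂ) * Complex.exp (((w * Real.log P : ℝ) : ℂ) * Complex.I)).re =
      ∑ P ∈ F, r P * Real.cos (w * Real.log P) := by
    rw [Complex.re_sum]
    apply sum_congr rfl
    intro P _
    rw [Complex.re_ofReal_mul, Complex.exp_ofReal_mul_I_re]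
  have him : (∑ P ∈ F, ((r P : ℝ) : ℂ) * Complex.exp (((w * Real.log P : ℝ) : ℂ) * Complex.I)).im =
      ∑ P ∈ F, r P * Real.sin (w * Real.log P) := by
    rw [Complex.im_sum]
    apply sum_congr rfl
    intro P _
    rw [Complex.im_ofReal_mul, Complex.exp_ofReal_mul_I_im]
  rw [hre, him, sum_mul_sum, sum_mul_sum, ← sum_add_distrib]
  apply sum_congr rfl
  intro P _
  rw [← sum_add_distrib]
  apply sum_congr rfl
  intro Q _
  have : (Real.log Q - Real.log P) * w = w * Real.log Q - w * Real.log P := by ring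
  rw [this, Real.cos_sub]
  ring

/-- the linear form `s ↦ Λ ⟨x, s⟩` on `ℝ^d` -/
noncomputable def linR {d : ℕ} (Λ : ℝ) (x : Fin d → ℝ) : (Fin d → ℝ) →+ ℝ where
  toFun s := Λ * ∑ i, x i * s i
  map_zero' := by simp
  map_add' s t := by
    simp only [Pi.add_apply, mul_add, sum_add_distrib]

theorem linR_apply {d : ℕ} (Λ : ℝ) (x : Fin d → ℝ) (s : Fin d → ℝ) :
    linR Λ x s = Λ * ∑ i, x i * s i := rfl

theorem freqR {d : ℕ} (Λ u : ℝ) (x k : Fin d → ℝ) :
    u * linR Λ x k = ∑ i, (fun i => Λ * u * k i) i * x i := by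
  rw [linR_apply, mul_sum, mul_sum]
  apply sum_congr rfl
  intro i _
  ring

theorem int_termR {d : ℕ} (μ : Measure (Fin d → ℝ)) [IsProbabilityMeasure μ]
    (C β Λ : ℝ) (hC : 0 ≤ C) (hβ0 : 0 < β) (hμ : Decays μ C β) (hΛ : 0 < Λ)
    {M P Q : ℕ} (hP : P ∈ Icc 1 M) (hQ : Q ∈ Icc 1 M) (k : Fin d → ℝ) (hk : 1 ≤ ‖k‖) :
    ∫ x, Real.cos ((Real.log Q - Real.log P) * linR Λ x k) ∂μ ≤
      (if P = Q then 1 else 0) + C * Λ ^ (-β) * |Real.log Q - Real.log P| ^ (-β) := by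
  simp only [freqR]
  have hnn : 0 ≤ C * Λ ^ (-β) * |Real.log Q - Real.log P| ^ (-β) := by positivity
  by_cases hPQ : P = Q
  · have := int_cos_one μ (fun i => Λ * (Real.log Q - Real.log P) * k i)
    rw [if_pos hPQ]
    linarith
  rw [if_neg hPQ, zero_add]
  have h0 : Real.log Q - Real.log P ≠ 0 := fun h => hPQ (log_ne hP hQ h)
  have h1 : 0 < |Real.log Q - Real.log P| := abs_pos.2 h0
  have h3 : ‖(fun i => Λ * (Real.log Q - Real.log P) * k i : Fin d → ℝ)‖ =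
      Λ * |Real.log Q - Real.log P| * ‖k‖ := by
    have e : (fun i => Λ * (Real.log Q - Real.log P) * k i : Fin d → ℝ) =
        (Λ * (Real.log Q - Real.log P)) • k := by
      funext i
      simp
    rw [e, norm_smul, Real.norm_eq_abs, abs_mul, abs_of_pos hΛ]
  have h4 : Λ * |Real.log Q - Real.log P| ≤
      ‖(fun i => Λ * (Real.log Q - Real.log P) * k i : Fin d → ℝ)‖ := by
    rw [h3]
    have : 0 < Λ * |Real.log Q - Real.log P| := by positivity
    nlinarith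
  have h4' : 0 < Λ * |Real.log Q - Real.log P| := by positivity
  have h5 : (fun i => Λ * (Real.log Q - Real.log P) * k i : Fin d → ℝ) ≠ 0 := by
    intro h
    rw [h, norm_zero] at h4
    linarith
  refine (int_cos μ _).trans ((hμ _ h5).trans ?_)
  have h6 : ‖(fun i => Λ * (Real.log Q - Real.log P) * k i : Fin d → ℝ)‖ ^ (-β) ≤
      (Λ * |Real.log Q - Real.log P|) ^ (-β) :=
    Real.rpow_le_rpow_of_nonpos h4' h4 (by linarith)
  rw [Real.mul_rpow hΛ.le h1.le] at h6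
  calc C * ‖(fun i => Λ * (Real.log Q - Real.log P) * k i : Fin d → ℝ)‖ ^ (-β) ≤
        C * (Λ ^ (-β) * |Real.log Q - Real.log P| ^ (-β)) := by gcongr
    _ = _ := by ring

theorem ZZ_cont {d : ℕ} (N j : ℕ) (Λ : ℝ) (k : Fin d → ℝ) :
    Continuous fun x : Fin d → ℝ => ‖ZZ N (linR Λ x k)‖ ^ j := by
  unfold ZZ
  simp only [linR_apply]
  fun_prop

theorem ZZ_le (N : ℕ) (w : ℝ) : ‖ZZ N w‖ ≤ N := by
  unfold ZZ
  refine (norm_sum_le _ _).trans ?_
  simp only [Complex.norm_exp_ofReal_mul_I]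
  simp

theorem ZZ_int {d : ℕ} (μ : Measure (Fin d → ℝ)) [IsProbabilityMeasure μ] (N j : ℕ) (Λ : ℝ)
    (k : Fin d → ℝ) : Integrable (fun x : Fin d → ℝ => ‖ZZ N (linR Λ x k)‖ ^ j) μ := by
  refine Integrable.of_bound (C := (N : ℝ) ^ j) (ZZ_cont N j Λ k).aestronglyMeasurable ?_
  exact Filter.Eventually.of_forall fun x => by
    rw [Real.norm_eq_abs, abs_of_nonneg (by positivity)]
    exact pow_le_pow_left₀ (norm_nonneg _) (ZZ_le N _) j

/-- the moment of order `2j` -/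
theorem momentU {d : ℕ} (μ : Measure (Fin d → ℝ)) [IsProbabilityMeasure μ]
    (C β Λ : ℝ) (hC : 1 ≤ C) (hβ0 : 0 < β) (hβ1 : β ≤ 1) (hμ : Decays μ C β) (hΛ : 0 < Λ)
    (N j : ℕ) (hN : 1 ≤ N) (hNΛ : (N : ℝ) ^ j ≤ Λ ^ β) (R : ℝ) (hR : 0 ≤ R)
    (hr : ∀ P ∈ Icc 1 (N ^ j), (rr N j P : ℝ) ≤ R) (k : Fin d → ℝ) (hk : 1 ≤ ‖k‖) :
    ∫ x, ‖ZZ N (linR Λ x k)‖ ^ (2 * j) ∂μ ≤ 3 * C * R ^ 2 * (N : ℝ) ^ j * (1 + j * Real.log N) := by
  have hC0 : 0 ≤ C := by linarith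
  have hcos : ∀ P Q : ℕ, Integrable (fun x : Fin d → ℝ => (rr N j P : ℝ) * (rr N j Q : ℝ) *
      Real.cos ((Real.log Q - Real.log P) * linR Λ x k)) μ := by
    intro P Q
    simp only [freqR]
    exact (cos_int μ _).const_mul _
  have h1 : ∀ x : Fin d → ℝ, ‖ZZ N (linR Λ x k)‖ ^ (2 * j) =
      ∑ P ∈ Icc 1 (N ^ j), ∑ Q ∈ Icc 1 (N ^ j), (rr N j P : ℝ) * (rr N j Q : ℝ) *
        Real.cos ((Real.log Q - Real.log P) * linR Λ x k) := by
    intro x
    rw [mul_comm 2 j, pow_mul, ← norm_pow, ZZ_pow]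
    exact norm_sqU _ (fun P => (rr N j P : ℝ)) _
  simp only [h1]
  rw [integral_finsetSum _ fun P _ => integrable_finsetSum _ fun Q _ => hcos P Q]
  have h2 : ∀ P ∈ Icc 1 (N ^ j), ∫ x, ∑ Q ∈ Icc 1 (N ^ j), (rr N j P : ℝ) * (rr N j Q : ℝ) *
        Real.cos ((Real.log Q - Real.log P) * linR Λ x k) ∂μ ≤
      ∑ Q ∈ Icc 1 (N ^ j), R ^ 2 * ((if P = Q then 1 else 0) +
        C * Λ ^ (-β) * |Real.log Q - Real.log P| ^ (-β)) := by
    intro P hP
    rw [integral_finsetSum _ fun Q _ => hcos P Q]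
    apply sum_le_sum
    intro Q hQ
    rw [integral_const_mul]
    have h3 := int_termR μ C β Λ hC0 hβ0 hμ hΛ hP hQ k hk
    have h4 : (rr N j P : ℝ) * (rr N j Q : ℝ) ≤ R ^ 2 := by
      rw [sq]
      exact mul_le_mul (hr P hP) (hr Q hQ) (by positivity) hR
    have h5 : 0 ≤ (if P = Q then (1 : ℝ) else 0) + C * Λ ^ (-β) * |Real.log Q - Real.log P| ^ (-β) := by
      split_ifs <;> positivity
    calc (rr N j P : ℝ) * (rr N j Q : ℝ) * _ ≤ (rr N j P : ℝ) * (rr N j Q : ℝ) *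
          ((if P = Q then (1 : ℝ) else 0) + C * Λ ^ (-β) * |Real.log Q - Real.log P| ^ (-β)) := by
          gcongr
      _ ≤ _ := by gcongr
  refine (sum_le_sum h2).trans ?_
  have h6 : ∑ P ∈ Icc 1 (N ^ j), ∑ Q ∈ Icc 1 (N ^ j), R ^ 2 * ((if P = Q then 1 else 0) +
        C * Λ ^ (-β) * |Real.log Q - Real.log P| ^ (-β)) =
      R ^ 2 * ((N : ℝ) ^ j + C * Λ ^ (-β) * ∑ P ∈ Icc 1 (N ^ j), ∑ Q ∈ Icc 1 (N ^ j),
        |Real.log Q - Real.log P| ^ (-β)) := by
    simp_rw [← mul_sum, sum_add_distrib, ← mul_sum]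
    congr 2
    simp only [sum_ite_eq]
    rw [sum_congr rfl (fun m hm => if_pos hm), sum_const, nsmul_eq_mul]
    simp
  rw [h6]
  have h7 := sum_logs0 (N ^ j) β hβ0 hβ1
  have hN1 : (1 : ℝ) ≤ N := by exact_mod_cast hN
  have hl : 0 ≤ Real.log N := Real.log_nonneg hN1
  have h8 : Real.log ((N ^ j : ℕ) : ℝ) = j * Real.log N := by
    push_cast
    rw [Real.log_pow]
  rw [h8] at h7
  have h9 : Λ ^ (-β) * (N : ℝ) ^ j ≤ 1 := by
    have e1 : Λ ^ (-β) * Λ ^ β = 1 := by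
      rw [← Real.rpow_add hΛ]
      simp
    have e2 : 0 ≤ Λ ^ (-β) := by positivity
    nlinarith [mul_le_mul_of_nonneg_left hNΛ e2]
  have h10 : C * Λ ^ (-β) * ∑ P ∈ Icc 1 (N ^ j), ∑ Q ∈ Icc 1 (N ^ j),
        |Real.log Q - Real.log P| ^ (-β) ≤ 2 * C * (N : ℝ) ^ j * (1 + j * Real.log N) := by
    calc _ ≤ C * Λ ^ (-β) * (2 * (((N ^ j : ℕ) : ℝ)) ^ 2 * (1 + j * Real.log N)) := by gcongr
      _ = 2 * C * (N : ℝ) ^ j * (1 + j * Real.log N) * (Λ ^ (-β) * (N : ℝ) ^ j) := by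
          push_cast
          ring
      _ ≤ 2 * C * (N : ℝ) ^ j * (1 + j * Real.log N) * 1 := by gcongr
      _ = _ := by ring
  have h11 : (N : ℝ) ^ j ≤ C * (N : ℝ) ^ j * (1 + j * Real.log N) := by
    have e1 : 0 < (N : ℝ) ^ j := by positivity
    have e2 : (1 : ℝ) ≤ 1 + j * Real.log N := by
      have : 0 ≤ (j : ℝ) * Real.log N := by positivity
      linarith
    have e3 : 1 ≤ C * (1 + j * Real.log N) := by nlinarith
    nlinarith
  calc _ ≤ R ^ 2 * (C * (N : ℝ) ^ j * (1 + j * Real.log N) +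
        2 * C * (N : ℝ) ^ j * (1 + j * Real.log N)) := by gcongr
    _ = _ := by ring

end Pool.Agent.K9h97.FD
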