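import Pool.Agent.K9h97.FD.U1

set_option autoImplicit false

/-!
Large values of Dirichlet polynomials at generic linear images: one exceptional set for all subsets.
-/

namespace Pool.Agent.K9h97.FD

open Finset MeasureTheory Pool.Agent.TH961.AP
open scoped Pointwise

theorem log_le_sqrtU (N : ℝ) (hN : 1 ≤ N) (j : ℕ) :
    1 + j * Real.log N ≤ (1 + 2 * j) * Real.sqrt N := by
  have h1 : 1 ≤ Real.sqrt N := Real.one_le_sqrt.2 hN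
  have h2 : Real.log N ≤ 2 * Real.sqrt N := by
    have e1 : Real.log N = 2 * Real.log (Real.sqrt N) := by
      rw [Real.log_sqrt (by linarith)]
      ring
    have e2 := Real.log_le_sub_one_of_pos (show 0 < Real.sqrt N by linarith)
    rw [e1]
    linarith
  have h3 : (0 : ℝ) ≤ j := Nat.cast_nonneg j
  nlinarith [mul_le_mul_of_nonneg_left h2 h3]

/-- one difference: the moment in the form used below -/
theorem momentU2 (j : ℕ) (hj : 1 ≤ j) : ∃ c : ℝ, 1 ≤ c ∧ ∀ (d : ℕ) (μ : Measure (Fin d → ℝ))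
    [IsProbabilityMeasure μ] (C β Λ : ℝ), 1 ≤ C → 0 < β → β ≤ 1 → Decays μ C β → 0 < Λ →
    ∀ N : ℕ, 1 ≤ N → (N : ℝ) ^ j ≤ Λ ^ β → ∀ k : Fin d → ℝ, 1 ≤ ‖k‖ →
      ∫ x, ‖ZZ N (linR Λ x k)‖ ^ (2 * j) ∂μ ≤ c * C * (N : ℝ) ^ (j + 1) := by
  obtain ⟨K, hK1, hK⟩ := rr_bound j hj
  refine ⟨3 * Real.sqrt K * (1 + 2 * j), ?_, ?_⟩
  · have h1 : 1 ≤ Real.sqrt K := Real.one_le_sqrt.2 hK1
    have h2 : (0 : ℝ) ≤ j := Nat.cast_nonneg j
    nlinarith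
  intro d μ _ C β Λ hC hβ0 hβ1 hμ hΛ N hN hNΛ k hk
  have hN1 : (1 : ℝ) ≤ N := by exact_mod_cast hN
  have h1 := momentU μ C β Λ hC hβ0 hβ1 hμ hΛ N j hN hNΛ (Real.sqrt (Real.sqrt (K * N)))
    (Real.sqrt_nonneg _) (fun P hP => by
      apply Real.le_sqrt_of_sq_le
      apply Real.le_sqrt_of_sq_le
      calc ((rr N j P : ℝ) ^ 2) ^ 2 = (rr N j P : ℝ) ^ 4 := by ring
        _ ≤ K * N := hK N hN P hP) k hk
  rw [Real.sq_sqrt (Real.sqrt_nonneg _), Real.sqrt_mul (by linarith)] at h1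
  refine h1.trans ?_
  have h2 := log_le_sqrtU N hN1 j
  have h3 : Real.sqrt N * Real.sqrt N = N := Real.mul_self_sqrt (by linarith)
  calc 3 * C * (Real.sqrt K * Real.sqrt N) * (N : ℝ) ^ j * (1 + j * Real.log N) ≤
        3 * C * (Real.sqrt K * Real.sqrt N) * (N : ℝ) ^ j * ((1 + 2 * j) * Real.sqrt N) := by
        gcongr
    _ = 3 * Real.sqrt K * (1 + 2 * j) * C * ((N : ℝ) ^ j * (Real.sqrt N * Real.sqrt N)) := by ring
    _ = _ := by rw [h3, pow_succ]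

/-- the exceptional set of one difference -/
theorem excU {d : ℕ} (μ : Measure (Fin d → ℝ)) [IsProbabilityMeasure μ] (Λ : ℝ) (N j : ℕ)
    (M : ℝ) (k : Fin d → ℝ) (hN : 1 ≤ N) (ε : ℝ)
    (hint : ∫ x, ‖ZZ N (linR Λ x k)‖ ^ (2 * j) ∂μ ≤ M * (N : ℝ) ^ (j + 1)) :
    μ {x | (N : ℝ) ^ (1 + ε) ≤ ‖ZZ N (linR Λ x k)‖ ^ 2} ≤
      ENNReal.ofReal (M * (N : ℝ) ^ (1 - ε * j)) := by
  have hN1 : (1 : ℝ) ≤ N := by exact_mod_cast hN
  have hN0 : (0 : ℝ) < N := by linarith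
  have h1 := mul_meas_ge_le_integral_of_nonneg (μ := μ)
    (f := fun x : Fin d → ℝ => ‖ZZ N (linR Λ x k)‖ ^ (2 * j))
    (Filter.Eventually.of_forall (fun x => by positivity)) (ZZ_int μ N (2 * j) Λ k)
    ((N : ℝ) ^ ((1 + ε) * j))
  have hsub : {x | (N : ℝ) ^ (1 + ε) ≤ ‖ZZ N (linR Λ x k)‖ ^ 2} ⊆
      {x | (N : ℝ) ^ ((1 + ε) * j) ≤ ‖ZZ N (linR Λ x k)‖ ^ (2 * j)} := by
    intro x hx
    have hx' : (N : ℝ) ^ (1 + ε) ≤ ‖ZZ N (linR Λ x k)‖ ^ 2 := hx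
    show (N : ℝ) ^ ((1 + ε) * j) ≤ ‖ZZ N (linR Λ x k)‖ ^ (2 * j)
    rw [Real.rpow_mul hN0.le, Real.rpow_natCast, pow_mul]
    exact pow_le_pow_left₀ (by positivity) hx' j
  refine (measure_mono hsub).trans ?_
  have hfin : μ {x | (N : ℝ) ^ ((1 + ε) * j) ≤ ‖ZZ N (linR Λ x k)‖ ^ (2 * j)} ≠ ⊤ :=
    measure_ne_top μ _
  rw [← ENNReal.ofReal_toReal hfin]
  apply ENNReal.ofReal_le_ofReal
  have h2 : (N : ℝ) ^ ((1 + ε) * j) *
      μ.real {x | (N : ℝ) ^ ((1 + ε) * j) ≤ ‖ZZ N (linR Λ x k)‖ ^ (2 * j)} ≤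
        M * (N : ℝ) ^ (j + 1) := h1.trans hint
  have h3 : 0 < (N : ℝ) ^ ((1 + ε) * j) := by positivity
  have h4 : M * (N : ℝ) ^ (j + 1) = (N : ℝ) ^ ((1 + ε) * j) * (M * (N : ℝ) ^ (1 - ε * j)) := by
    have e1 : (N : ℝ) ^ ((1 + ε) * j) * (N : ℝ) ^ (1 - ε * j) = (N : ℝ) ^ (j + 1) := by
      rw [← Real.rpow_add hN0, ← Real.rpow_natCast]
      congr 1
      push_cast
      ring
    rw [← e1]
    ring
  rw [h4] at h2
  exact le_of_mul_le_mul_left h2 h3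

/-- the exceptional set of all differences -/
theorem excQ (j : ℕ) (hj : 1 ≤ j) : ∃ c : ℝ, 1 ≤ c ∧ ∀ (d : ℕ) (μ : Measure (Fin d → ℝ))
    [IsProbabilityMeasure μ] (C β Λ : ℝ), 1 ≤ C → 0 < β → β ≤ 1 → Decays μ C β → 0 < Λ →
    ∀ N : ℕ, 1 ≤ N → (N : ℝ) ^ j ≤ Λ ^ β → ∀ (ε A B : ℝ), 2 * A + B + 1 ≤ ε * j →
    ∀ Q : Finset (Fin d → ℝ), (∀ s ∈ Q, ∀ t ∈ Q, s ≠ t → 1 ≤ ‖s - t‖) → (Q.card : ℝ) ≤ (N : ℝ) ^ A →
      ∃ E : Set (Fin d → ℝ), MeasurableSet E ∧ μ E ≤ ENNReal.ofReal (c * C * (N : ℝ) ^ (-B)) ∧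
        ∀ x ∉ E, ∀ s ∈ Q, ∀ t ∈ Q, s ≠ t →
          ‖ZZ N (linR Λ x s - linR Λ x t)‖ ^ 2 ≤ (N : ℝ) ^ (1 + ε) := by
  classical
  obtain ⟨c, hc1, hc⟩ := momentU2 j hj
  refine ⟨c, hc1, ?_⟩
  intro d μ _ C β Λ hC hβ0 hβ1 hμ hΛ N hN hNΛ ε A B hj2 Q hQ hQA
  have hN1 : (1 : ℝ) ≤ N := by exact_mod_cast hN
  have hN0 : (0 : ℝ) < N := by linarith
  set P : Finset ((Fin d → ℝ) × (Fin d → ℝ)) := (Q ×ˢ Q).filter (fun p => p.1 ≠ p.2) with hP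
  refine ⟨⋃ p ∈ P, {x | (N : ℝ) ^ (1 + ε) ≤ ‖ZZ N (linR Λ x (p.1 - p.2))‖ ^ 2}, ?_, ?_, ?_⟩
  · refine Finset.measurableSet_biUnion P fun p _ => ?_
    exact measurableSet_le measurable_const (ZZ_cont N 2 Λ (p.1 - p.2)).measurable
  · refine (measure_biUnion_finset_le P _).trans ?_
    have h1 : ∀ p ∈ P, μ {x | (N : ℝ) ^ (1 + ε) ≤ ‖ZZ N (linR Λ x (p.1 - p.2))‖ ^ 2} ≤
        ENNReal.ofReal (c * C * (N : ℝ) ^ (1 - ε * j)) := by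
      intro p hp
      rw [hP, mem_filter, mem_product] at hp
      exact excU μ Λ N j (c * C) (p.1 - p.2) hN ε
        (hc d μ C β Λ hC hβ0 hβ1 hμ hΛ N hN hNΛ (p.1 - p.2) (hQ p.1 hp.1.1 p.2 hp.1.2 hp.2))
    refine (sum_le_sum h1).trans ?_
    rw [sum_const, ← ENNReal.ofReal_nsmul]
    apply ENNReal.ofReal_le_ofReal
    rw [nsmul_eq_mul]
    have h2 : (P.card : ℝ) ≤ (N : ℝ) ^ (2 * A) := by
      have e1 : P.card ≤ Q.card * Q.card := by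
        refine (card_le_card (filter_subset _ _)).trans ?_
        rw [card_product]
      calc (P.card : ℝ) ≤ (Q.card : ℝ) * Q.card := by exact_mod_cast e1
        _ ≤ (N : ℝ) ^ A * (N : ℝ) ^ A := by gcongr
        _ = _ := by rw [← Real.rpow_add hN0]; congr 1; ring
    have h3 : 0 ≤ c * C * (N : ℝ) ^ (1 - ε * j) := by positivity
    calc (P.card : ℝ) * (c * C * (N : ℝ) ^ (1 - ε * j)) ≤
          (N : ℝ) ^ (2 * A) * (c * C * (N : ℝ) ^ (1 - ε * j)) := by gcongr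
      _ = c * C * ((N : ℝ) ^ (2 * A) * (N : ℝ) ^ (1 - ε * j)) := by ring
      _ = c * C * (N : ℝ) ^ (2 * A + (1 - ε * j)) := by rw [← Real.rpow_add hN0]
      _ ≤ c * C * (N : ℝ) ^ (-B) := by
          have : (N : ℝ) ^ (2 * A + (1 - ε * j)) ≤ (N : ℝ) ^ (-B) :=
            Real.rpow_le_rpow_of_exponent_le hN1 (by linarith)
          gcongr
  · intro x hx s hs t ht hst
    by_contra hc2
    push Not at hc2
    apply hx
    simp only [Set.mem_iUnion]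
    refine ⟨(s, t), ?_, ?_⟩
    · rw [hP, mem_filter, mem_product]
      exact ⟨⟨hs, ht⟩, hst⟩
    · show (N : ℝ) ^ (1 + ε) ≤ ‖ZZ N (linR Λ x (s - t))‖ ^ 2
      rw [map_sub]
      exact hc2.le

/-- the double sum in terms of `∑ n^{iw}` -/
theorem GY_eq {α : Type} (N : ℕ) (T : Finset α) (y : α → ℝ) :
    GY N T y = ∑ t ∈ T, ∑ t' ∈ T, ‖ZZ N (y t - y t')‖ ^ 2 := by
  unfold GY
  have h1 : ∀ m ∈ Icc 1 N, ∑ n ∈ Icc 1 N, ∑ t ∈ T, ∑ t' ∈ T,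
      Real.cos ((Real.log n - Real.log m) * (y t - y t')) =
      ∑ t ∈ T, ∑ t' ∈ T, ∑ n ∈ Icc 1 N,
        Real.cos ((Real.log n - Real.log m) * (y t - y t')) := by
    intro m _
    rw [sum_comm]
    apply sum_congr rfl
    intro t _
    rw [sum_comm]
  rw [sum_congr rfl h1, sum_comm]
  apply sum_congr rfl
  intro t _
  rw [sum_comm]
  apply sum_congr rfl
  intro t' _
  have h2 := norm_sqU (Icc 1 N) (fun _ => 1) (y t - y t')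
  simp only [Complex.ofReal_one, one_mul] at h2
  unfold ZZ
  rw [h2]

theorem GY_leU {α : Type} [DecidableEq α] (N : ℕ) (T : Finset α) (y : α → ℝ) (W : ℝ) (hW : 0 ≤ W)
    (h : ∀ s ∈ T, ∀ t ∈ T, s ≠ t → ‖ZZ N (y s - y t)‖ ^ 2 ≤ W) :
    GY N T y ≤ (N : ℝ) ^ 2 * T.card + W * (T.card : ℝ) ^ 2 := by
  rw [GY_eq]
  have h1 : ∀ s ∈ T, ∀ t ∈ T, ‖ZZ N (y s - y t)‖ ^ 2 ≤ (if s = t then (N : ℝ) ^ 2 else 0) + W := by
    intro s hs t ht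
    by_cases hst : s = t
    · rw [if_pos hst]
      have := pow_le_pow_left₀ (norm_nonneg _) (ZZ_le N (y s - y t)) 2
      linarith
    · rw [if_neg hst, zero_add]
      exact h s hs t ht hst
  refine (sum_le_sum fun s hs => sum_le_sum fun t ht => h1 s hs t ht).trans (le_of_eq ?_)
  simp_rw [sum_add_distrib, sum_ite_eq]
  rw [sum_congr rfl (fun m hm => if_pos hm), sum_const, nsmul_eq_mul]
  simp only [sum_const, nsmul_eq_mul]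
  ring

end Pool.Agent.K9h97.FD
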