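import Pool.Agent.K9h97.FD.U2

set_option autoImplicit false

/-!
Large values of Dirichlet polynomials at generic linear images: mean squares over sumsets, and the
bound of Halász and Montgomery.
-/

namespace Pool.Agent.K9h97.FD

open Finset MeasureTheory Pool.Agent.TH961.AP
open scoped Pointwise

section

variable {α γ : Type}

/-- the double sum over two sets -/
theorem sum2Y (N : ℕ) (T : Finset α) (T' : Finset γ) (y : α → ℝ) (z : γ → ℝ) (t₀ : ℝ)
    (a : ℕ → ℂ) (ha : ∀ n, ‖a n‖ ≤ 1) :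
    ∑ t ∈ T, ∑ t' ∈ T', ‖DP N a (t₀ + (y t + z t'))‖ ^ 2 ≤
      Real.sqrt (GY N T y) * Real.sqrt (GY N T' z) := by
  have hterm : ∀ t ∈ T, ∀ t' ∈ T', ((‖DP N a (t₀ + (y t + z t'))‖ ^ 2 : ℝ) : ℂ) =
      ∑ m ∈ Icc 1 N, ∑ n ∈ Icc 1 N, (a m * (starRingEnd ℂ) (a n) *
        Complex.exp ((t₀ * (Real.log n - Real.log m) : ℝ) * Complex.I)) *
        (Complex.exp (((Real.log n - Real.log m) * y t : ℝ) * Complex.I) *
          Complex.exp (((Real.log n - Real.log m) * z t' : ℝ) * Complex.I)) := by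
    intro t _ t' _
    have h1 : ((‖DP N a (t₀ + (y t + z t'))‖ ^ 2 : ℝ) : ℂ) =
        DP N a (t₀ + (y t + z t')) *
          (starRingEnd ℂ) (DP N a (t₀ + (y t + z t'))) := by
      rw [Complex.mul_conj, Complex.normSq_eq_norm_sq]
    rw [h1]
    unfold DP
    rw [map_sum, Finset.sum_mul_sum]
    apply sum_congr rfl
    intro m hm
    apply sum_congr rfl
    intro n hn
    rw [cpow_eq m (mem_Icc.1 hm).1, cpow_eq n (mem_Icc.1 hn).1, map_mul, ← Complex.exp_conj]
    have h2 : (starRingEnd ℂ) (((-((t₀ + (y t + z t')) * Real.log n) : ℝ) : ℂ) * Complex.I) =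
        (((t₀ + (y t + z t')) * Real.log n : ℝ) : ℂ) * Complex.I := by
      rw [map_mul, Complex.conj_ofReal, Complex.conj_I]
      push_cast; ring
    rw [h2]
    have h3 : Complex.exp (((-((t₀ + (y t + z t')) * Real.log m) : ℝ) : ℂ) * Complex.I) *
        Complex.exp ((((t₀ + (y t + z t')) * Real.log n : ℝ) : ℂ) * Complex.I) =
        Complex.exp ((t₀ * (Real.log n - Real.log m) : ℝ) * Complex.I) *
        (Complex.exp (((Real.log n - Real.log m) * y t : ℝ) * Complex.I) *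
          Complex.exp (((Real.log n - Real.log m) * z t' : ℝ) * Complex.I)) := by
      rw [← Complex.exp_add, ← Complex.exp_add, ← Complex.exp_add]
      congr 1
      push_cast
      ring
    calc a m * Complex.exp (((-((t₀ + (y t + z t')) * Real.log m) : ℝ) : ℂ) * Complex.I) *
          ((starRingEnd ℂ) (a n) *
            Complex.exp ((((t₀ + (y t + z t')) * Real.log n : ℝ) : ℂ) * Complex.I))
        = a m * (starRingEnd ℂ) (a n) *
          (Complex.exp (((-((t₀ + (y t + z t')) * Real.log m) : ℝ) : ℂ) * Complex.I) *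
          Complex.exp ((((t₀ + (y t + z t')) * Real.log n : ℝ) : ℂ) * Complex.I)) := by ring
      _ = _ := by rw [h3]; ring
  have h4 : ((∑ t ∈ T, ∑ t' ∈ T', ‖DP N a (t₀ + (y t + z t'))‖ ^ 2 : ℝ) : ℂ) =
      ∑ m ∈ Icc 1 N, ∑ n ∈ Icc 1 N, (a m * (starRingEnd ℂ) (a n) *
        Complex.exp ((t₀ * (Real.log n - Real.log m) : ℝ) * Complex.I)) *
        ∑ t ∈ T, ∑ t' ∈ T', (Complex.exp (((Real.log n - Real.log m) * y t : ℝ) * Complex.I) *
          Complex.exp (((Real.log n - Real.log m) * z t' : ℝ) * Complex.I)) := by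
    rw [Complex.ofReal_sum]
    calc ∑ t ∈ T, ((∑ t' ∈ T', ‖DP N a (t₀ + (y t + z t'))‖ ^ 2 : ℝ) : ℂ)
        = ∑ t ∈ T, ∑ t' ∈ T', ∑ m ∈ Icc 1 N, ∑ n ∈ Icc 1 N, (a m * (starRingEnd ℂ) (a n) *
        Complex.exp ((t₀ * (Real.log n - Real.log m) : ℝ) * Complex.I)) *
        (Complex.exp (((Real.log n - Real.log m) * y t : ℝ) * Complex.I) *
            Complex.exp (((Real.log n - Real.log m) * z t' : ℝ) * Complex.I)) := by
          apply sum_congr rfl
          intro t ht
          rw [Complex.ofReal_sum]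
          exact sum_congr rfl (fun t' ht' => hterm t ht t' ht')
      _ = ∑ m ∈ Icc 1 N, ∑ n ∈ Icc 1 N, ∑ t ∈ T, ∑ t' ∈ T', (a m * (starRingEnd ℂ) (a n) *
        Complex.exp ((t₀ * (Real.log n - Real.log m) : ℝ) * Complex.I)) *
        (Complex.exp (((Real.log n - Real.log m) * y t : ℝ) * Complex.I) *
            Complex.exp (((Real.log n - Real.log m) * z t' : ℝ) * Complex.I)) := by
          rw [sum_congr rfl (fun t _ => sum_comm), sum_comm]
          apply sum_congr rfl
          intro m _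
          rw [sum_congr rfl (fun t _ => sum_comm), sum_comm]
      _ = _ := by
          apply sum_congr rfl
          intro m _
          apply sum_congr rfl
          intro n _
          rw [mul_sum]
          apply sum_congr rfl
          intro t _
          rw [mul_sum]
  have h5 : ∑ t ∈ T, ∑ t' ∈ T', ‖DP N a (t₀ + (y t + z t'))‖ ^ 2 =
      ‖((∑ t ∈ T, ∑ t' ∈ T', ‖DP N a (t₀ + (y t + z t'))‖ ^ 2 : ℝ) : ℂ)‖ := by
    rw [Complex.norm_real, Real.norm_eq_abs,
      abs_of_nonneg (sum_nonneg (fun _ _ => sum_nonneg (fun _ _ => by positivity)))]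
  rw [h5, h4]
  have hA : ∀ m n : ℕ, ‖∑ t ∈ T, Complex.exp (((Real.log n - Real.log m) * y t : ℝ) * Complex.I)‖ ^ 2 =
      ∑ t ∈ T, ∑ t' ∈ T, Real.cos ((Real.log n - Real.log m) * (y t - y t')) := by
    intro m n
    rw [cos_sum_sqY, ← Complex.normSq_eq_norm_sq, Complex.normSq_apply]
    have hre : (∑ t ∈ T,
        Complex.exp (((Real.log n - Real.log m) * y t : ℝ) * Complex.I)).re =
        ∑ t ∈ T, Real.cos ((Real.log n - Real.log m) * y t) := by
      rw [Complex.re_sum]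
      apply sum_congr rfl
      intro t _
      rw [Complex.exp_ofReal_mul_I_re]
    have him : (∑ t ∈ T,
        Complex.exp (((Real.log n - Real.log m) * y t : ℝ) * Complex.I)).im =
        ∑ t ∈ T, Real.sin ((Real.log n - Real.log m) * y t) := by
      rw [Complex.im_sum]
      apply sum_congr rfl
      intro t _
      rw [Complex.exp_ofReal_mul_I_im]
    rw [hre, him]
    ring
  have hB : ∀ m n : ℕ, ‖∑ t ∈ T', Complex.exp (((Real.log n - Real.log m) * z t : ℝ) * Complex.I)‖ ^ 2 =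
      ∑ t ∈ T', ∑ t' ∈ T', Real.cos ((Real.log n - Real.log m) * (z t - z t')) := by
    intro m n
    rw [cos_sum_sqY, ← Complex.normSq_eq_norm_sq, Complex.normSq_apply]
    have hre : (∑ t ∈ T',
        Complex.exp (((Real.log n - Real.log m) * z t : ℝ) * Complex.I)).re =
        ∑ t ∈ T', Real.cos ((Real.log n - Real.log m) * z t) := by
      rw [Complex.re_sum]
      apply sum_congr rfl
      intro t _
      rw [Complex.exp_ofReal_mul_I_re]
    have him : (∑ t ∈ T',
        Complex.exp (((Real.log n - Real.log m) * z t : ℝ) * Complex.I)).im =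
        ∑ t ∈ T', Real.sin ((Real.log n - Real.log m) * z t) := by
      rw [Complex.im_sum]
      apply sum_congr rfl
      intro t _
      rw [Complex.exp_ofReal_mul_I_im]
    rw [hre, him]
    ring
  have hstep : ‖∑ m ∈ Icc 1 N, ∑ n ∈ Icc 1 N, (a m * (starRingEnd ℂ) (a n) *
        Complex.exp ((t₀ * (Real.log n - Real.log m) : ℝ) * Complex.I)) *
        ∑ t ∈ T, ∑ t' ∈ T', (Complex.exp (((Real.log n - Real.log m) * y t : ℝ) * Complex.I) *
          Complex.exp (((Real.log n - Real.log m) * z t' : ℝ) * Complex.I))‖ ≤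
      ∑ p ∈ Icc 1 N ×ˢ Icc 1 N,
        ‖∑ t ∈ T, Complex.exp (((Real.log p.2 - Real.log p.1) * y t : ℝ) * Complex.I)‖ *
        ‖∑ t ∈ T', Complex.exp (((Real.log p.2 - Real.log p.1) * z t : ℝ) * Complex.I)‖ := by
    rw [sum_product]
    refine (norm_sum_le _ _).trans (sum_le_sum fun m _ => (norm_sum_le _ _).trans
      (sum_le_sum fun n _ => ?_))
    rw [norm_mul, norm_mul, norm_mul, Complex.norm_exp_ofReal_mul_I, mul_one]
    have h6 : ‖(starRingEnd ℂ) (a n)‖ ≤ 1 := by
      rw [RCLike.norm_conj]; exact ha n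
    have h7 : ‖a m‖ * ‖(starRingEnd ℂ) (a n)‖ ≤ 1 := by
      have := ha m
      nlinarith [norm_nonneg (a m), norm_nonneg ((starRingEnd ℂ) (a n))]
    rw [← sum_mul_sum, norm_mul]
    have h9 : 0 ≤ ‖∑ t ∈ T, Complex.exp (((Real.log n - Real.log m) * y t : ℝ) * Complex.I)‖ *
        ‖∑ t ∈ T', Complex.exp (((Real.log n - Real.log m) * z t : ℝ) * Complex.I)‖ := by positivity
    nlinarith
  refine hstep.trans ((Real.sum_mul_le_sqrt_mul_sqrt _ _ _).trans (le_of_eq ?_))
  rw [sum_product, sum_product]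
  unfold GY
  congr 2
  · exact sum_congr rfl fun m _ => sum_congr rfl fun n _ => hA m n
  · exact sum_congr rfl fun m _ => sum_congr rfl fun n _ => hB m n

end

/-- duality (Halász, Montgomery) -/
theorem dualU {α : Type} (N : ℕ) (S : Finset α) (y : α → ℝ) (t₀ V : ℝ) (a : ℕ → ℂ)
    (ha : ∀ n, ‖a n‖ ≤ 1) (hV : 0 ≤ V) (h : ∀ s ∈ S, V ≤ ‖DP N a (t₀ + y s)‖) :
    (V * S.card) ^ 2 ≤ N * ∑ s ∈ S, ∑ s' ∈ S, ‖ZZ N (y s - y s')‖ := by
  classical
  -- signs
  set c : α → ℂ := fun s => (starRingEnd ℂ) (DP N a (t₀ + y s)) / ‖DP N a (t₀ + y s)‖ with hc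
  have hc1 : ∀ s, ‖c s‖ ≤ 1 := by
    intro s
    rw [hc]
    simp only [norm_div, RCLike.norm_conj, Complex.norm_real, norm_norm]
    exact div_self_le_one _
  have hc2 : ∀ s, c s * DP N a (t₀ + y s) = (‖DP N a (t₀ + y s)‖ : ℂ) := by
    intro s
    rw [hc]
    simp only
    by_cases h0 : DP N a (t₀ + y s) = 0
    · rw [h0]; simp
    · have h1 : (‖DP N a (t₀ + y s)‖ : ℂ) ≠ 0 := by
        exact_mod_cast norm_ne_zero_iff.2 h0
      rw [div_mul_eq_mul_div, mul_comm, Complex.mul_conj, Complex.normSq_eq_norm_sq]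
      push_cast
      field_simp
  have h1 : V * S.card ≤ ∑ s ∈ S, ‖DP N a (t₀ + y s)‖ := by
    calc V * S.card = ∑ _s ∈ S, V := by rw [sum_const, nsmul_eq_mul, mul_comm]
      _ ≤ _ := sum_le_sum h
  set g : ℕ → ℂ := fun n => ∑ s ∈ S, c s * Complex.exp (((-(y s * Real.log n) : ℝ) : ℂ) * Complex.I)
    with hg
  have h2 : ((∑ s ∈ S, ‖DP N a (t₀ + y s)‖ : ℝ) : ℂ) = ∑ n ∈ Icc 1 N,
      (a n * Complex.exp (((-(t₀ * Real.log n) : ℝ) : ℂ) * Complex.I)) * g n := by
    rw [Complex.ofReal_sum]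
    calc ∑ s ∈ S, (‖DP N a (t₀ + y s)‖ : ℂ) = ∑ s ∈ S, ∑ n ∈ Icc 1 N,
          (a n * Complex.exp (((-(t₀ * Real.log n) : ℝ) : ℂ) * Complex.I)) *
            (c s * Complex.exp (((-(y s * Real.log n) : ℝ) : ℂ) * Complex.I)) := by
          apply sum_congr rfl
          intro s _
          rw [← hc2 s]
          unfold DP
          rw [mul_sum]
          apply sum_congr rfl
          intro n hn
          rw [cpow_eq n (mem_Icc.1 hn).1]
          have : Complex.exp (((-((t₀ + y s) * Real.log n) : ℝ) : ℂ) * Complex.I) =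
              Complex.exp (((-(t₀ * Real.log n) : ℝ) : ℂ) * Complex.I) *
                Complex.exp (((-(y s * Real.log n) : ℝ) : ℂ) * Complex.I) := by
            rw [← Complex.exp_add]
            congr 1
            push_cast
            ring
          rw [this]
          ring
      _ = _ := by
          rw [sum_comm]
          apply sum_congr rfl
          intro n _
          rw [hg, mul_sum]
  have h3 : ∑ s ∈ S, ‖DP N a (t₀ + y s)‖ ≤ ∑ n ∈ Icc 1 N, 1 * ‖g n‖ := by
    have e1 : ∑ s ∈ S, ‖DP N a (t₀ + y s)‖ = ‖((∑ s ∈ S, ‖DP N a (t₀ + y s)‖ : ℝ) : ℂ)‖ := by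
      rw [Complex.norm_real, Real.norm_eq_abs, abs_of_nonneg (sum_nonneg fun _ _ => norm_nonneg _)]
    rw [e1, h2]
    refine (norm_sum_le _ _).trans (sum_le_sum fun n _ => ?_)
    rw [norm_mul, norm_mul, Complex.norm_exp_ofReal_mul_I, mul_one]
    exact mul_le_mul_of_nonneg_right (ha n) (norm_nonneg _)
  have h4 : (∑ n ∈ Icc 1 N, 1 * ‖g n‖) ^ 2 ≤ N * ∑ n ∈ Icc 1 N, ‖g n‖ ^ 2 := by
    refine (Finset.sum_mul_sq_le_sq_mul_sq _ _ _).trans (le_of_eq ?_)
    simp
  have h5 : ∑ n ∈ Icc 1 N, ‖g n‖ ^ 2 ≤ ∑ s ∈ S, ∑ s' ∈ S, ‖ZZ N (y s - y s')‖ := by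
    have e1 : ((∑ n ∈ Icc 1 N, ‖g n‖ ^ 2 : ℝ) : ℂ) =
        ∑ s ∈ S, ∑ s' ∈ S, (starRingEnd ℂ) (c s) * c s' * ZZ N (y s - y s') := by
      rw [Complex.ofReal_sum]
      have e2 : ∀ n ∈ Icc 1 N, ((‖g n‖ ^ 2 : ℝ) : ℂ) = ∑ s ∈ S, ∑ s' ∈ S,
          (starRingEnd ℂ) (c s) * c s' *
            Complex.exp ((((y s - y s') * Real.log n : ℝ) : ℂ) * Complex.I) := by
        intro n _
        rw [← Complex.normSq_eq_norm_sq, ← Complex.mul_conj, mul_comm, hg]
        simp only
        rw [map_sum, sum_mul_sum]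
        apply sum_congr rfl
        intro s _
        apply sum_congr rfl
        intro s' _
        rw [map_mul, ← Complex.exp_conj, map_mul, Complex.conj_ofReal, Complex.conj_I]
        have : Complex.exp ((((y s - y s') * Real.log n : ℝ) : ℂ) * Complex.I) =
            Complex.exp (((-(y s * Real.log n) : ℝ) : ℂ) * -Complex.I) *
              Complex.exp (((-(y s' * Real.log n) : ℝ) : ℂ) * Complex.I) := by
          rw [← Complex.exp_add]
          congr 1
          push_cast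
          ring
        rw [this]
        ring
      rw [sum_congr rfl e2, sum_comm]
      apply sum_congr rfl
      intro s _
      rw [sum_comm]
      apply sum_congr rfl
      intro s' _
      rw [← mul_sum]
      rfl
    have e3 : ∑ n ∈ Icc 1 N, ‖g n‖ ^ 2 = ‖((∑ n ∈ Icc 1 N, ‖g n‖ ^ 2 : ℝ) : ℂ)‖ := by
      rw [Complex.norm_real, Real.norm_eq_abs, abs_of_nonneg (sum_nonneg fun _ _ => by positivity)]
    rw [e3, e1]
    refine (norm_sum_le _ _).trans (sum_le_sum fun s _ => (norm_sum_le _ _).trans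
      (sum_le_sum fun s' _ => ?_))
    rw [norm_mul, norm_mul, RCLike.norm_conj]
    have := hc1 s
    have := hc1 s'
    have h6 : ‖c s‖ * ‖c s'‖ ≤ 1 := by
      nlinarith [norm_nonneg (c s), norm_nonneg (c s')]
    nlinarith [norm_nonneg (ZZ N (y s - y s'))]
  calc (V * S.card) ^ 2 ≤ (∑ n ∈ Icc 1 N, 1 * ‖g n‖) ^ 2 :=
        pow_le_pow_left₀ (by positivity) (h1.trans h3) 2
    _ ≤ N * ∑ n ∈ Icc 1 N, ‖g n‖ ^ 2 := h4
    _ ≤ _ := by gcongr

end Pool.Agent.K9h97.FD
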