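import Pool.Agent.K9h97.FD.U3

set_option autoImplicit false

/-!
Large values of Dirichlet polynomials at generic linear images: all subsets of one finite set at the
same time.
-/

namespace Pool.Agent.K9h97.FD

open Finset MeasureTheory Pool.Agent.TH961.AP
open scoped Pointwise

/-- from a bound for the energy to a bound for the number of large values -/
theorem of_energyU {R E K V A B : ℝ} (hR : 0 < R) (hK : 0 < K) (hV : 0 < V)
    (hE : R ^ 3 ≤ K * E) (h : V ^ 2 * E ≤ A * R ^ 2 + B * R ^ 3) (hB : 2 * K * B ≤ V ^ 2) :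
    R ≤ 2 * K * A / V ^ 2 := by
  have hV2 : 0 < V ^ 2 := by positivity
  have h1 : V ^ 2 * R ^ 3 ≤ K * (A * R ^ 2 + B * R ^ 3) := by
    calc V ^ 2 * R ^ 3 ≤ V ^ 2 * (K * E) := by gcongr
      _ = K * (V ^ 2 * E) := by ring
      _ ≤ _ := by gcongr
  have h2 : 2 * K * B * R ^ 3 ≤ V ^ 2 * R ^ 3 := by gcongr
  have h3 : V ^ 2 * R ^ 3 ≤ 2 * K * A * R ^ 2 := by linarith
  rw [le_div_iff₀ hV2]
  have h4 : R ^ 2 * (R * V ^ 2) ≤ R ^ 2 * (2 * K * A) := by linarith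
  exact le_of_mul_le_mul_left h4 (by positivity)

theorem mainU (j : ℕ) (hj : 1 ≤ j) : ∃ c : ℝ, 1 ≤ c ∧ ∀ (d : ℕ) (μ : Measure (Fin d → ℝ))
    [IsProbabilityMeasure μ] (C β Λ : ℝ), 1 ≤ C → 0 < β → β ≤ 1 → Decays μ C β → 0 < Λ →
    ∀ N : ℕ, 1 ≤ N → (N : ℝ) ^ j ≤ Λ ^ β → ∀ (ε A B : ℝ), 2 * A + B + 1 ≤ ε * j →
    ∀ Q : Finset (Fin d → ℝ), (∀ s ∈ Q, ∀ t ∈ Q, s ≠ t → 1 ≤ ‖s - t‖) → (Q.card : ℝ) ≤ (N : ℝ) ^ A →
      ∃ E : Set (Fin d → ℝ), MeasurableSet E ∧ μ E ≤ ENNReal.ofReal (c * C * (N : ℝ) ^ (-B)) ∧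
        ∀ x ∉ E, ∀ (a : ℕ → ℂ) (t₀ : ℝ), (∀ n, ‖a n‖ ≤ 1) → ∀ S ⊆ Q,
          (∀ T ⊆ Q, ∑ s ∈ S, ∑ t ∈ T, ‖DP N a (t₀ + Λ * ∑ i, x i * (s i + t i))‖ ^ 2 ≤
            Real.sqrt ((N : ℝ) ^ 2 * S.card + (N : ℝ) ^ (1 + ε) * (S.card : ℝ) ^ 2) *
            Real.sqrt ((N : ℝ) ^ 2 * T.card + (N : ℝ) ^ (1 + ε) * (T.card : ℝ) ^ 2)) ∧
          ∀ V : ℝ, 0 < V → (∀ s ∈ S, V ≤ ‖DP N a (t₀ + Λ * ∑ i, x i * s i)‖) →
            (∀ K : ℝ, 0 < K → (S.card : ℝ) ^ 3 ≤ K * (S.addEnergy S : ℕ) →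
              2 * K * (N : ℝ) ^ (1 + ε) ≤ V ^ 2 → (S.card : ℝ) ≤ 2 * K * ((N : ℝ) ^ 2 / V ^ 2)) ∧
            (2 * (N : ℝ) ^ (3 / 2 + ε / 2) ≤ V ^ 2 → (S.card : ℝ) ≤ 2 * ((N : ℝ) ^ 2 / V ^ 2)) := by
  classical
  obtain ⟨c, hc1, hc⟩ := excQ j hj
  refine ⟨c, hc1, ?_⟩
  intro d μ _ C β Λ hC hβ0 hβ1 hμ hΛ N hN hNΛ ε A B hj2 Q hQ hQA
  obtain ⟨E, hE1, hE2, hE3⟩ := hc d μ C β Λ hC hβ0 hβ1 hμ hΛ N hN hNΛ ε A B hj2 Q hQ hQA
  refine ⟨E, hE1, hE2, ?_⟩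
  intro x hx a t₀ ha S hS
  have hN1 : (1 : ℝ) ≤ N := by exact_mod_cast hN
  have hN0 : (0 : ℝ) < N := by linarith
  have hW : 0 ≤ (N : ℝ) ^ (1 + ε) := by positivity
  have hGY : ∀ T ⊆ Q, GY N T (linR Λ x) ≤
      (N : ℝ) ^ 2 * T.card + (N : ℝ) ^ (1 + ε) * (T.card : ℝ) ^ 2 := fun T hT =>
    GY_leU N T (linR Λ x) _ hW fun s hs t ht hst => hE3 x hx s (hT hs) t (hT ht) hst
  refine ⟨?_, ?_⟩
  · intro T hT
    have h1 := sum2Y N S T (linR Λ x) (linR Λ x) t₀ a ha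
    have h2 : ∑ s ∈ S, ∑ t ∈ T, ‖DP N a (t₀ + Λ * ∑ i, x i * (s i + t i))‖ ^ 2 =
        ∑ s ∈ S, ∑ t ∈ T, ‖DP N a (t₀ + (linR Λ x s + linR Λ x t))‖ ^ 2 := by
      apply sum_congr rfl
      intro s _
      apply sum_congr rfl
      intro t _
      rw [← map_add]
      rfl
    rw [h2]
    refine h1.trans ?_
    exact mul_le_mul (Real.sqrt_le_sqrt (hGY S hS)) (Real.sqrt_le_sqrt (hGY T hT))
      (Real.sqrt_nonneg _) (Real.sqrt_nonneg _)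
  · intro V hV hlarge
    have hlarge' : ∀ s ∈ S, V ≤ ‖DP N a (t₀ + linR Λ x s)‖ := hlarge
    rcases S.eq_empty_or_nonempty with hS0 | hS0
    · rw [hS0]
      simp only [card_empty, Nat.cast_zero]
      refine ⟨fun K hK _ _ => by positivity, fun _ => by positivity⟩
    have hR0 : (0 : ℝ) < S.card := by exact_mod_cast hS0.card_pos
    have hV2 : 0 < V ^ 2 := by positivity
    refine ⟨?_, ?_⟩
    · intro K hK hE hVK
      have h1 := energyY N S (linR Λ x) t₀ V a ha hV.le hlarge'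
      have h2 : V ^ 2 * (S.addEnergy S : ℕ) ≤
          (N : ℝ) ^ 2 * (S.card : ℝ) ^ 2 + (N : ℝ) ^ (1 + ε) * (S.card : ℝ) ^ 3 := by
        calc V ^ 2 * (S.addEnergy S : ℕ) ≤ S.card * GY N S (linR Λ x) := by
              convert h1 using 3
          _ ≤ S.card * ((N : ℝ) ^ 2 * S.card + (N : ℝ) ^ (1 + ε) * (S.card : ℝ) ^ 2) :=
              mul_le_mul_of_nonneg_left (hGY S hS) hR0.le
          _ = _ := by ring
      refine (of_energyU hR0 hK hV hE h2 hVK).trans (le_of_eq ?_)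
      ring
    · intro hVN
      have h1 := dualU N S (linR Λ x) t₀ V a ha hV.le hlarge'
      have h2 : ∀ s ∈ S, ∀ t ∈ S, ‖ZZ N (linR Λ x s - linR Λ x t)‖ ≤
          (if s = t then (N : ℝ) else 0) + (N : ℝ) ^ (1 / 2 + ε / 2) := by
        intro s hs t ht
        have hp : 0 ≤ (N : ℝ) ^ (1 / 2 + ε / 2) := by positivity
        by_cases hst : s = t
        · rw [if_pos hst]
          have := ZZ_le N (linR Λ x s - linR Λ x t)
          linarith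
        · rw [if_neg hst, zero_add]
          have h3 := hE3 x hx s (hS hs) t (hS ht) hst
          have h4 : (N : ℝ) ^ (1 + ε) = ((N : ℝ) ^ (1 / 2 + ε / 2)) ^ 2 := by
            rw [← Real.rpow_natCast, ← Real.rpow_mul hN0.le]
            congr 1
            push_cast
            ring
          rw [h4] at h3
          exact le_of_sq_le_sq h3 hp
      have h5 : ∑ s ∈ S, ∑ t ∈ S, ‖ZZ N (linR Λ x s - linR Λ x t)‖ ≤
          N * S.card + (N : ℝ) ^ (1 / 2 + ε / 2) * (S.card : ℝ) ^ 2 := by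
        refine (sum_le_sum fun s hs => sum_le_sum fun t ht => h2 s hs t ht).trans (le_of_eq ?_)
        simp_rw [sum_add_distrib, sum_ite_eq]
        rw [sum_congr rfl (fun m hm => if_pos hm), sum_const, nsmul_eq_mul]
        simp only [sum_const, nsmul_eq_mul]
        ring
      have h6 : (V * S.card) ^ 2 ≤
          N * (N * S.card + (N : ℝ) ^ (1 / 2 + ε / 2) * (S.card : ℝ) ^ 2) :=
        h1.trans (mul_le_mul_of_nonneg_left h5 hN0.le)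
      have h7 : (N : ℝ) * (N : ℝ) ^ (1 / 2 + ε / 2) = (N : ℝ) ^ (3 / 2 + ε / 2) := by
        rw [show (3 / 2 + ε / 2 : ℝ) = 1 + (1 / 2 + ε / 2) by ring, Real.rpow_add hN0 1,
          Real.rpow_one]
      have h8 : (V * S.card) ^ 2 ≤ (N : ℝ) ^ 2 * S.card +
          (N : ℝ) ^ (3 / 2 + ε / 2) * (S.card : ℝ) ^ 2 := by
        rw [← h7]
        refine h6.trans (le_of_eq ?_)
        ring
      have h9 : 2 * (N : ℝ) ^ (3 / 2 + ε / 2) * (S.card : ℝ) ^ 2 ≤ V ^ 2 * (S.card : ℝ) ^ 2 := by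
        gcongr
      have h10 : (S.card : ℝ) * (S.card * V ^ 2) ≤ S.card * (2 * (N : ℝ) ^ 2) := by
        nlinarith
      have h11 : (S.card : ℝ) * V ^ 2 ≤ 2 * (N : ℝ) ^ 2 := le_of_mul_le_mul_left h10 hR0
      rw [← mul_div_assoc, le_div_iff₀ hV2]
      exact h11

end Pool.Agent.K9h97.FD
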